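import Pool.Agent.Helper28.TL.Defs
import Pool.Agent.Helper24.UG.Win

/-!
# OP: blocks O5a (`conv_id`) and O5b (`rho_facts`)
-/

set_option autoImplicit false
open MeasureTheory Set Filter Topology
open Pool.Agent.Helper57.Zeta Pool.Agent.Helper57.LH Pool.Agent.Helper57.ED
open Pool.Agent.Helper54.LG (za zb qk SS MM qk_cont qk_zero_nonneg qk_neg_right)
open Pool.Agent.Helper93.UG (zc sp)
open Pool.Agent.Helper69.UG (XX NX near far)
open Pool.Agent.Helper57.NS (cnt)
open Pool.Agent.Helper28.TL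
open Pool.Agent.Helper24.UG (zc_fin summable_q0 NX_nonneg NX_measurable NX_intervalIntegrable qk_mass qk_le)

namespace Pool.Agent.Helper28.TL.H82

/-- the parameters, without the range -/
lemma par0 {k R L T : ℝ} (hR : 0 < R) (hRL : R ≤ L) (hT : 3 ≤ T) : 0 < Ms k R L ∧ 0 < sp T ∧ 0 < Xo k T R L ∧ 0 < Real.log T ∧
    Ms k R L * sp T = 2 * Real.pi / Xo k T R L := by
  have hlT : 0 < Real.log T := Real.log_pos (by linarith)
  have hL : 0 < L := by linarith
  have hM : 0 < Ms k R L := by
    unfold Ms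
    positivity
  have hs : 0 < sp T := by
    unfold sp
    have := Real.pi_pos
    positivity
  have hX : 0 < Xo k T R L := by
    unfold Xo XX
    positivity
  refine ⟨hM, hs, hX, hlT, ?_⟩
  unfold Xo XX sp
  field_simp

lemma rho_eq {k R L T : ℝ} (hR : 0 < R) (hRL : R ≤ L) (hT : 3 ≤ T) (v : ℝ) :
    rho k T R L v = Xo k T R L / (2 * Real.pi) * qk 0 (Xo k T R L * v) := by
  obtain ⟨hM, hs, hX, hlT, he⟩ := par0 (k := k) hR hRL hT
  have hpi := Real.pi_pos
  unfold Helper28.TL.rho
  rw [he]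
  field_simp

/-- **O5b**: the density -/
theorem rho_facts {k R L T : ℝ} (hR : 0 < R) (hRL : R ≤ L) (hT : 3 ≤ T) :
    (∀ v, 0 ≤ rho k T R L v) ∧ Continuous (rho k T R L) ∧ Integrable (rho k T R L) ∧ ∫ v, rho k T R L v = 1 ∧
      ∀ v, v ≠ 0 → rho k T R L v ≤ 4 * Ms k R L / (Real.log T * v ^ 2) := by
  obtain ⟨hM, hs, hX, hlT, he⟩ := par0 (k := k) hR hRL hT
  have hpi := Real.pi_gt_three
  have hf : rho k T R L = fun v => Xo k T R L / (2 * Real.pi) * qk 0 (Xo k T R L * v) := funext fun v => rho_eq hR hRL hT v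
  obtain ⟨m1, m2, _⟩ := qk_mass hX
  refine ⟨fun v => ?_, ?_, ?_, ?_, fun v hv => ?_⟩
  · rw [rho_eq hR hRL hT]
    have := qk_zero_nonneg (Xo k T R L * v)
    positivity
  · rw [hf]
    exact continuous_const.mul ((qk_cont 0).comp (by fun_prop))
  · rw [hf]
    exact m1
  · rw [hf]
    exact m2
  · rw [rho_eq hR hRL hT]
    have h1 := qk_le (Xo k T R L * v)
    have h2 : 0 < (Xo k T R L * v) ^ 2 := by positivity
    have h3 : qk 0 (Xo k T R L * v) ≤ 8 / (Xo k T R L * v) ^ 2 := by
      rw [le_div_iff₀ h2]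
      linarith
    calc Xo k T R L / (2 * Real.pi) * qk 0 (Xo k T R L * v) ≤ Xo k T R L / (2 * Real.pi) * (8 / (Xo k T R L * v) ^ 2) :=
          mul_le_mul_of_nonneg_left h3 (by positivity)
      _ = 4 / Real.pi * (Ms k R L / (Real.log T * v ^ 2)) := by
          unfold Xo XX
          field_simp
          ring
      _ ≤ 4 * (Ms k R L / (Real.log T * v ^ 2)) := by
          apply mul_le_mul_of_nonneg_right _ (by positivity)
          rw [div_le_iff₀ (by positivity)]
          linarith
      _ = _ := by ring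

/-! ### O5a -/

/-- the `t` whose window contains the ordinate -/
private def Wd (s a b : ℝ) (ρ : ZS) : Set ℝ := {t : ℝ | a * s ≤ (ρ : ℂ).im - t ∧ (ρ : ℂ).im - t ≤ b * s}

private lemma Wd_meas (s a b : ℝ) (ρ : ZS) : MeasurableSet (Wd s a b ρ) := by
  have h1 : MeasurableSet {t : ℝ | a * s ≤ (ρ : ℂ).im - t} := measurableSet_le measurable_const (by fun_prop)
  have h2 : MeasurableSet {t : ℝ | (ρ : ℂ).im - t ≤ b * s} := measurableSet_le (by fun_prop) measurable_const
  exact h1.inter h2

private lemma mem_win {T : ℝ} (hs : 0 < sp T) (a b t u : ℝ) : (u - t) / sp T ∈ Icc a b ↔ a * sp T ≤ u - t ∧ u - t ≤ b * sp T := by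
  rw [mem_Icc, le_div_iff₀ hs, div_le_iff₀ hs]

private lemma cnt_tsum {T : ℝ} (hs : 0 < sp T) (a b t : ℝ) : ENNReal.ofReal (cnt T t (Icc a b)) =
    ∑' ρ : ZS, (Wd (sp T) a b ρ).indicator (fun _ => ENNReal.ofReal (mx ρ)) t := by
  have hsub : {u : ℝ | (u - t) / sp T ∈ Icc a b} ⊆ Icc (t + a * sp T) (t + b * sp T) := by
    intro u hu
    rw [mem_ofPred_eq, mem_win hs] at hu
    constructor <;> linarith [hu.1, hu.2]
  obtain ⟨F, hF, h1⟩ := zc_fin hsub
  unfold cnt
  rw [h1, ENNReal.ofReal_sum_of_nonneg (fun ρ _ => mx_nonneg _), tsum_eq_sum (s := F)]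
  · refine Finset.sum_congr rfl fun ρ hρ => ?_
    have h2 : t ∈ Wd (sp T) a b ρ := (mem_win hs a b t _).1 ((hF ρ).1 hρ)
    rw [indicator_of_mem h2]
  · intro ρ hρ
    have h2 : t ∉ Wd (sp T) a b ρ := fun h3 => hρ ((hF ρ).2 ((mem_win hs a b t _).2 h3))
    rw [indicator_of_notMem h2]

theorem cnt_nonneg (T t : ℝ) (W : Set ℝ) : 0 ≤ cnt T t W := Nat.cast_nonneg _

theorem cnt_meas {T : ℝ} (hs : 0 < sp T) (a b : ℝ) : Measurable (fun t => cnt T t (Icc a b)) := by
  have h1 : Measurable fun t => ENNReal.ofReal (cnt T t (Icc a b)) := by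
    simp_rw [cnt_tsum hs]
    exact Measurable.tsum fun ρ => measurable_const.indicator (Wd_meas _ a b ρ)
  have h2 : (fun t => (ENNReal.ofReal (cnt T t (Icc a b))).toReal) = fun t => cnt T t (Icc a b) := by
    funext t
    exact ENNReal.toReal_ofReal (cnt_nonneg _ _ _)
  rw [← h2]
  exact h1.ennreal_toReal

private lemma NX_E (X : ℝ) (hX : 0 < X) (t : ℝ) : ENNReal.ofReal (NX X t) = ∑' ρ : ZS, ENNReal.ofReal (mx ρ * qk 0 (zb X t ρ)) := by
  unfold Helper69.UG.NX
  exact ENNReal.ofReal_tsum_of_nonneg (fun _ => mul_nonneg (mx_nonneg _) (qk_zero_nonneg _)) (summable_q0 hX t)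

private lemma term_meas (X : ℝ) (ρ : ZS) : Measurable fun t => ENNReal.ofReal (mx ρ * qk 0 (zb X t ρ)) := by
  apply ENNReal.measurable_ofReal.comp
  apply Measurable.const_mul
  have h1 := (qk_cont 0).measurable
  have h2 : Measurable fun t : ℝ => zb X t ρ := by unfold zb; fun_prop
  exact h1.comp h2

private lemma kern_meas (X c : ℝ) : Measurable fun s => ENNReal.ofReal (c * qk 0 (X * s)) := by
  apply ENNReal.measurable_ofReal.comp
  apply Measurable.const_mul
  exact (qk_cont 0).measurable.comp (measurable_const_mul X)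

private lemma one_zero {X : ℝ} (hX : 0 < X) (s a b t : ℝ) (ρ : ZS) :
    ∫⁻ v, ENNReal.ofReal (X / (2 * Real.pi) * qk 0 (X * v)) * (Wd s a b ρ).indicator (fun _ => ENNReal.ofReal (mx ρ)) (t + v) =
      ∫⁻ u in Icc (t + a * s) (t + b * s), ENNReal.ofReal (X / (2 * Real.pi)) * ENNReal.ofReal (mx ρ * qk 0 (zb X u ρ)) := by
  have hpi := Real.pi_pos
  rw [← lintegral_sub_left_eq_self (fun v => ENNReal.ofReal (X / (2 * Real.pi) * qk 0 (X * v)) *
    (Wd s a b ρ).indicator (fun _ => ENNReal.ofReal (mx ρ)) (t + v)) ((ρ : ℂ).im),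
    ← lintegral_indicator measurableSet_Icc]
  congr 1
  funext w
  have h1 : X * ((ρ : ℂ).im - w) = -(zb X w ρ) := by unfold zb; ring
  by_cases hw : w ∈ Icc (t + a * s) (t + b * s)
  · have h2 : t + ((ρ : ℂ).im - w) ∈ Wd s a b ρ := by
      constructor <;> linarith [hw.1, hw.2]
    rw [indicator_of_mem hw, indicator_of_mem h2, h1, qk_neg_right, ← ENNReal.ofReal_mul (by
      have := qk_zero_nonneg (zb X w ρ)
      positivity), ← ENNReal.ofReal_mul (by positivity)]
    congr 1
    ring
  · have h2 : t + ((ρ : ℂ).im - w) ∉ Wd s a b ρ := by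
      intro h3
      apply hw
      constructor <;> linarith [h3.1, h3.2]
    rw [indicator_of_notMem hw, indicator_of_notMem h2, mul_zero]

private lemma win_lint {X T : ℝ} (hX : 0 < X) (hs : 0 < sp T) (a b t : ℝ) :
    ∫⁻ v, ENNReal.ofReal (X / (2 * Real.pi) * qk 0 (X * v) * cnt T (t + v) (Icc a b)) =
      ∫⁻ u in Icc (t + a * sp T) (t + b * sp T), ENNReal.ofReal (X / (2 * Real.pi) * NX X u) := by
  have hpi := Real.pi_pos
  have h1 : ∀ v, ENNReal.ofReal (X / (2 * Real.pi) * qk 0 (X * v) * cnt T (t + v) (Icc a b)) =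
      ∑' ρ : ZS, ENNReal.ofReal (X / (2 * Real.pi) * qk 0 (X * v)) *
        (Wd (sp T) a b ρ).indicator (fun _ => ENNReal.ofReal (mx ρ)) (t + v) := by
    intro v
    rw [ENNReal.ofReal_mul (by
      have := qk_zero_nonneg (X * v)
      positivity), cnt_tsum hs, ENNReal.tsum_mul_left]
  have h2 : ∀ u, ENNReal.ofReal (X / (2 * Real.pi) * NX X u) =
      ∑' ρ : ZS, ENNReal.ofReal (X / (2 * Real.pi)) * ENNReal.ofReal (mx ρ * qk 0 (zb X u ρ)) := by
    intro u
    rw [ENNReal.ofReal_mul (by positivity), NX_E X hX, ENNReal.tsum_mul_left]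
  simp_rw [h1, h2]
  rw [lintegral_tsum, lintegral_tsum]
  · congr 1
    funext ρ
    exact one_zero hX _ a b t ρ
  · intro ρ
    apply Measurable.aemeasurable
    apply Measurable.const_mul
    exact term_meas X ρ
  · intro ρ
    apply Measurable.aemeasurable
    apply (kern_meas X _).mul
    exact (measurable_const.indicator (Wd_meas _ a b ρ)).comp (measurable_const_add t)

theorem NX_int {X : ℝ} (hX : 0 < X) (c d : ℝ) : IntegrableOn (NX X) (Icc c d) := by
  have h1 := NX_intervalIntegrable hX 0 (max |c| |d|)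
  simp only [zero_add] at h1
  refine h1.mono_set fun u hu => ?_
  have h2 := neg_abs_le c
  have h3 := le_abs_self d
  constructor
  · linarith [hu.1, le_max_left |c| |d|]
  · linarith [hu.2, le_max_right |c| |d|]

/-- one interval -/
theorem conv_one {k R L T : ℝ} (hR : 0 < R) (hRL : R ≤ L) (hT : 3 ≤ T) (t : ℝ) {a b : ℝ} (hab : a ≤ b) :
    Integrable (fun v => rho k T R L v * cnt T (t + v) (Icc a b)) ∧
      ∫ v, rho k T R L v * cnt T (t + v) (Icc a b) = Nt k T R L t b - Nt k T R L t a := by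
  obtain ⟨hM, hs, hX, hlT, he⟩ := par0 (k := k) hR hRL hT
  have hpi := Real.pi_pos
  obtain ⟨X, hXd⟩ : ∃ X, X = Xo k T R L := ⟨_, rfl⟩
  rw [← hXd] at hX he
  simp_rw [rho_eq hR hRL hT]
  rw [← hXd]
  have habs : t + a * sp T ≤ t + b * sp T := by
    have := mul_le_mul_of_nonneg_right hab hs.le
    linarith
  have hI : IntegrableOn (fun u => X / (2 * Real.pi) * NX X u) (Icc (t + a * sp T) (t + b * sp T)) := (NX_int hX _ _).const_mul _
  have hI0 : 0 ≤ᵐ[volume.restrict (Icc (t + a * sp T) (t + b * sp T))] fun u => X / (2 * Real.pi) * NX X u := by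
    filter_upwards with w
    have := NX_nonneg X w
    simp only [Pi.zero_apply]
    positivity
  have h1 := win_lint hX hs a b t
  rw [← ofReal_integral_eq_lintegral_ofReal hI hI0] at h1
  have hm : AEStronglyMeasurable (fun v => X / (2 * Real.pi) * qk 0 (X * v) * cnt T (t + v) (Icc a b)) := by
    apply Measurable.aestronglyMeasurable
    apply Measurable.mul
    · exact ((qk_cont 0).measurable.comp (measurable_const_mul X)).const_mul _
    · exact (cnt_meas hs a b).comp (measurable_const_add t)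
  have h0 : ∀ v, 0 ≤ X / (2 * Real.pi) * qk 0 (X * v) * cnt T (t + v) (Icc a b) := by
    intro v
    have := qk_zero_nonneg (X * v)
    have := cnt_nonneg T (t + v) (Icc a b)
    positivity
  refine ⟨⟨hm, ?_⟩, ?_⟩
  · rw [hasFiniteIntegral_iff_ofReal (Filter.Eventually.of_forall h0), h1]
    exact ENNReal.ofReal_lt_top
  · rw [integral_eq_lintegral_of_nonneg_ae (Filter.Eventually.of_forall h0) hm, h1, ENNReal.toReal_ofReal (integral_nonneg_of_ae hI0),
      integral_const_mul, integral_Icc_eq_integral_Ioc, ← intervalIntegral.integral_of_le habs]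
    have hii : ∀ c d, IntervalIntegrable (NX X) volume c d := by
      intro c d
      rw [intervalIntegrable_iff]
      exact (NX_int hX (min c d) (max c d)).mono_set Ioc_subset_Icc_self
    unfold Nt
    rw [he, ← hXd, ← intervalIntegral.integral_add_adjacent_intervals (hii (t + a * sp T) t) (hii t (t + b * sp T)),
      intervalIntegral.integral_symm t (t + a * sp T), one_div_div]
    ring

/-- **O5a**: the smoothed statistic -/
theorem conv_id {k R L T : ℝ} (hR : 0 < R) (hRL : R ≤ L) (hT : 3 ≤ T) (F : Fam R L) (t : ℝ) :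
    Integrable (fun v => rho k T R L v * St F T (t + v)) ∧
      ∫ v, rho k T R L v * St F T (t + v) = Ev F (Nt k T R L t) := by
  have h0 := conv_one (k := k) hR hRL hT t (a := -R) (b := R) (by linarith)
  have h1 : ∀ i, Integrable (fun v => rho k T R L v * cnt T (t + v) (Icc (F.a i) (F.b i))) ∧
      ∫ v, rho k T R L v * cnt T (t + v) (Icc (F.a i) (F.b i)) = Nt k T R L t (F.b i) - Nt k T R L t (F.a i) :=
    fun i => conv_one (k := k) hR hRL hT t (F.le i)
  have h2 : (fun v => rho k T R L v * St F T (t + v)) = fun v => rho k T R L v * cnt T (t + v) (Icc (-R) R) +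
      ∑ i, F.c i * (rho k T R L v * cnt T (t + v) (Icc (F.a i) (F.b i))) := by
    funext v
    unfold St
    rw [mul_add, Finset.mul_sum]
    congr 1
    refine Finset.sum_congr rfl fun i _ => ?_
    ring
  have h3 : Integrable (fun v => ∑ i, F.c i * (rho k T R L v * cnt T (t + v) (Icc (F.a i) (F.b i)))) :=
    integrable_finsetSum _ fun i _ => (h1 i).1.const_mul _
  rw [h2]
  refine ⟨h0.1.add h3, ?_⟩
  rw [integral_add h0.1 h3, h0.2, integral_finsetSum _ fun i _ => (h1 i).1.const_mul _]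
  unfold Ev
  congr 1
  refine Finset.sum_congr rfl fun i _ => ?_
  rw [integral_const_mul, (h1 i).2]

/-- O4d: measurability -/
theorem st_meas {R L : ℝ} (F : Fam R L) {T : ℝ} (hT : 1 < T) : Measurable (St F T) := by
  have hs : 0 < sp T := by
    unfold sp
    have := Real.pi_pos
    have := Real.log_pos hT
    positivity
  unfold St
  exact (cnt_meas hs _ _).add (Finset.measurable_sum _ fun i _ => (cnt_meas hs _ _).const_mul _)

end Pool.Agent.Helper28.TL.H82
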