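import Pool.Agent.Helper62.OP.Defs

/-!
# TL: linear tolerance: families of intervals anywhere in `[-L, L]`

The definitions of `Helper62.OP.Defs` for families of intervals in `[-L, L]`; everything else is exported from there.
-/

set_option autoImplicit false
open MeasureTheory Set Filter Topology
open Pool.Agent.Helper57.Zeta Pool.Agent.Helper57.LH Pool.Agent.Helper57.ED
open Pool.Agent.Helper54.LG (za zb qk SS MM)
open Pool.Agent.Helper93.UG (zc sp)
open Pool.Agent.Helper69.UG (XX NX near far)
open Pool.Agent.Helper57.TX (QX DP rs)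
open Pool.Agent.Helper57.NS (cnt)

namespace Pool.Agent.Helper28.TL

export Pool.Agent.Helper62.OP (Rng Ms Lf Xo rho Nt pr Pp DC)

/-- A finite family of intervals in `[-L, L]`, with real weights. -/
structure Fam (R L : ℝ) where
  n : ℕ
  a : Fin n → ℝ
  b : Fin n → ℝ
  c : Fin n → ℝ
  le : ∀ i, a i ≤ b i
  inn : ∀ i, -L ≤ a i ∧ b i ≤ L

/-- The total weight, with the window. -/
noncomputable def Fam.B {R L : ℝ} (F : Fam R L) : ℝ := 1 + ∑ i, |F.c i|

/-- The increments of `g` over the intervals, with the weights (the window `[-R, R]` has the weight `1`). -/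
noncomputable def Ev {R L : ℝ} (F : Fam R L) (g : ℝ → ℝ) : ℝ :=
  (g R - g (-R)) + ∑ i, F.c i * (g (F.b i) - g (F.a i))

/-- The same for complex functions. -/
noncomputable def EvC {R L : ℝ} (F : Fam R L) (g : ℝ → ℂ) : ℂ :=
  (g R - g (-R)) + ∑ i, (F.c i : ℂ) * (g (F.b i) - g (F.a i))

/-- The statistic: the number of the zeros in the window plus the weighted numbers in the intervals. -/
noncomputable def St {R L : ℝ} (F : Fam R L) (T t : ℝ) : ℝ :=
  cnt T t (Icc (-R) R) + ∑ i, F.c i * cnt T t (Icc (F.a i) (F.b i))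

/-- The coefficients for the family `F`. -/
noncomputable def wo (k T : ℝ) {R L : ℝ} (F : Fam R L) (p : ℕ) : ℂ :=
  -(Complex.I / Real.pi) * (pr k T R L p : ℂ) *
    EvC F fun x => Complex.exp (-((x * sp T * Real.log p : ℝ) : ℂ) * Complex.I)

/-- The prime sum for the family `F`. -/
noncomputable def Pf (k T : ℝ) {R L : ℝ} (F : Fam R L) (t : ℝ) : ℝ := (DC (QX (Xo k T R L)) (wo k T F) t).re

/-- Its variance (twice). -/
noncomputable def Wf (k T : ℝ) {R L : ℝ} (F : Fam R L) : ℝ := ∑ p ∈ QX (Xo k T R L), ‖wo k T F p‖ ^ 2 / p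

end Pool.Agent.Helper28.TL
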