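import Pool.Agent.Helper28.TL.StBd
import Pool.Agent.Helper57.TX.Final

/-!
# OP, block O4a: final form
-/

set_option autoImplicit false
open MeasureTheory Set Filter Topology
open Pool.Agent.Helper28.TL

namespace Pool.Agent.Helper28.TL.H8

/-- O4a -/
theorem st_bd {d : ℝ} (hd : 0 < d) (hd1 : d ≤ 1) (e B : ℝ) (he : 0 < e) (hB : 0 < B) : ∃ C T₀ : ℝ, 1 ≤ C ∧
    ∀ T R L : ℝ, T₀ ≤ T → C ≤ L → Rng d T R L →
    ∃ E : Set ℝ, volume E ≤ ENNReal.ofReal (C * L ^ (-B) * T) ∧ ∀ t ∈ Icc T (2 * T), t ∉ E → ∀ F : Fam R L,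
      |St F T t - Ev F id| ≤ F.B * L ^ e :=
  st_bd_of Pool.Agent.Helper57.TX.tx1 hd hd1 e B he hB

end Pool.Agent.Helper28.TL.H8
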