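import Pool.Agent.Helper28.TL.Conv
import Pool.Agent.Helper28.TL.StBdF
import Pool.Agent.Helper93.NR.Mom

/-!
# OP, block O4b (reserve): the second moment of the statistic
-/

set_option autoImplicit false
open MeasureTheory Set Filter Topology
open Pool.Agent.Helper57.Zeta Pool.Agent.Helper57.LH Pool.Agent.Helper57.ED
open Pool.Agent.Helper93.UG (zc sp)
open Pool.Agent.Helper57.NS (cnt)
open Pool.Agent.Helper28.TL

namespace Pool.Agent.Helper28.TL.H69

lemma zcf_mono {I J : Set ℝ} (h : I ⊆ J) {a b : ℝ} (hJ : J ⊆ Icc a b) : zc I ≤ zc J :=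
  Pool.Agent.Helper56.UG.zc_mono h hJ

/-- the statistic is at most the total weight times the number of all zeros at distance at most `L` -/
lemma st_abs {R L T : ℝ} (hR : 0 < R) (hRL : R ≤ L) (hT : 1 < T) (F : Fam R L) (t : ℝ) :
    |St F T t| ≤ F.B * (zc (Ico (t + -(L * sp T)) (t + -(L * sp T) + (2 * L + 1) * sp T)) : ℝ) := by
  have hs : 0 < sp T := by
    unfold sp
    have := Real.log_pos hT
    positivity
  obtain ⟨N, hN⟩ : ∃ N : ℝ, N = (zc (Ico (t + -(L * sp T)) (t + -(L * sp T) + (2 * L + 1) * sp T)) : ℝ) := ⟨_, rfl⟩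
  rw [← hN]
  have h1 : ∀ a b : ℝ, -L ≤ a → b ≤ L → cnt T t (Icc a b) ≤ N := by
    intro a b ha hb
    rw [hN]
    unfold cnt
    have h2 : {u : ℝ | (u - t) / sp T ∈ Icc a b} ⊆ Ico (t + -(L * sp T)) (t + -(L * sp T) + (2 * L + 1) * sp T) := by
      rintro u ⟨h3, h4⟩
      rw [le_div_iff₀ hs] at h3
      rw [div_le_iff₀ hs] at h4
      have h5 : -L * sp T ≤ a * sp T := mul_le_mul_of_nonneg_right ha hs.le
      have h6 : b * sp T ≤ L * sp T := mul_le_mul_of_nonneg_right hb hs.le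
      constructor
      · linarith
      · have : (2 * L + 1) * sp T = 2 * (L * sp T) + sp T := by ring
        linarith
    exact_mod_cast zcf_mono h2 Ico_subset_Icc_self
  have h0 : ∀ a b : ℝ, 0 ≤ cnt T t (Icc a b) := fun a b => Nat.cast_nonneg _
  unfold St Fam.B
  have hs1 : |∑ i, F.c i * cnt T t (Icc (F.a i) (F.b i))| ≤ (∑ i, |F.c i|) * N := by
    rw [Finset.sum_mul]
    refine (Finset.abs_sum_le_sum_abs _ _).trans (Finset.sum_le_sum fun i _ => ?_)
    rw [abs_mul, abs_of_nonneg (h0 _ _)]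
    refine mul_le_mul_of_nonneg_left ?_ (abs_nonneg _)
    have h2 := F.le i
    exact h1 _ _ (F.inn i).1 (F.inn i).2
  have h3 := abs_add_le (cnt T t (Icc (-R) R)) (∑ i, F.c i * cnt T t (Icc (F.a i) (F.b i)))
  have h4 := h1 (-R) R (by linarith) hRL
  rw [abs_of_nonneg (h0 _ _)] at h3
  rw [add_mul, one_mul]
  linarith

/-- O4b -/
theorem st_sq {d : ℝ} (hd : 0 < d) (_ : d ≤ 1) : ∃ C T₀ : ℝ, 1 ≤ C ∧ ∀ T R L : ℝ, T₀ ≤ T → C ≤ L → Rng d T R L →
    ∀ F : Fam R L, IntegrableOn (fun t => St F T t ^ 2) (Icc T (2 * T)) ∧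
      ∫ t in Icc T (2 * T), St F T t ^ 2 ≤ C * F.B ^ 2 * L ^ 4 * T := by
  obtain ⟨C, e, T1, hC, he, H⟩ := Pool.Agent.Helper57.TX.tx1 1
  have hlim : ∀ᶠ x : ℝ in atTop, 3 * x ^ (1 - d) ≤ e * (x / Real.log x) ∧ 20 ≤ x := by
    refine Filter.Eventually.and ?_ (eventually_ge_atTop 20)
    have h1 : Tendsto (fun x : ℝ => Real.log x / x ^ d) atTop (𝓝 0) := (isLittleO_log_rpow_atTop hd).tendsto_div_nhds_zero
    have h2 := h1.eventually_lt_const (show (0:ℝ) < e / 3 by positivity)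
    filter_upwards [h2, eventually_gt_atTop 1] with x hx hx1
    have hx0 : 0 < x := by linarith
    have hl : 0 < Real.log x := Real.log_pos hx1
    rw [div_lt_iff₀ (Real.rpow_pos_of_pos hx0 _)] at hx
    rw [← mul_div_assoc, le_div_iff₀ hl]
    have h3 : x ^ (1 - d) * x ^ d = x := by
      rw [← Real.rpow_add hx0]
      norm_num
    have h4 : 0 ≤ x ^ (1 - d) := Real.rpow_nonneg hx0.le _
    have h5 := mul_le_mul_of_nonneg_left hx.le h4
    nlinarith
  obtain ⟨x0, hx0⟩ := hlim.exists_forall_of_atTop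
  refine ⟨12 * C + 60, max (max T1 20) (Real.exp x0), by linarith, fun T R L hT hL hRng F => ?_⟩
  obtain ⟨hR1, hR2, hR3⟩ := hRng
  have hT1 : T1 ≤ T := (le_max_left _ _).trans ((le_max_left _ _).trans hT)
  have hT20 : 20 ≤ T := (le_max_right _ _).trans ((le_max_left _ _).trans hT)
  have hx : x0 ≤ Real.log T := by
    rw [Real.le_log_iff_exp_le (by linarith)]
    exact (le_max_right _ _).trans hT
  obtain ⟨h1, h2⟩ := hx0 _ hx
  have hL1 : 1 ≤ L := by linarith
  have hLp : 0 < L := by linarith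
  have hR : 0 < R := lt_of_lt_of_le (Real.rpow_pos_of_pos hLp _) hR2
  have hRL : R ≤ L := hR3.trans (by
    calc L ^ (1 - d) ≤ L ^ (1 : ℝ) := Real.rpow_le_rpow_of_exponent_le hL1 (by linarith)
      _ = L := Real.rpow_one _)
  have hLlog : L ≤ Real.log T := hR1.trans (by
    calc Real.log T ^ (1 - d) ≤ Real.log T ^ (1 : ℝ) := Real.rpow_le_rpow_of_exponent_le (by linarith) (by linarith)
      _ = Real.log T := Real.rpow_one _)
  have hs : 0 < sp T := by
    unfold sp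
    have := Real.pi_pos
    positivity
  have hsl : sp T * Real.log T = 2 * Real.pi := by
    unfold sp
    field_simp
  have hs1 : sp T ≤ 1 := by
    have := Real.pi_lt_four
    nlinarith
  have hLs : L * sp T ≤ 8 := by
    have := Real.pi_lt_four
    nlinarith
  obtain ⟨c, hc⟩ : ∃ c : ℝ, c = 2 * L + 1 := ⟨_, rfl⟩
  obtain ⟨g1, g2⟩ := H T hT1 c (by linarith) (by linarith)
  obtain ⟨k1, k2⟩ := Pool.Agent.Helper93.NR.shift_le (T := T) (a := -(L * sp T))
    (fun t => |(zc (Ico t (t + c * sp T)) : ℝ) - c| ^ (2 * 1)) (fun t => by positivity) g1 (by linarith) (by linarith [mul_pos hLp hs])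
  simp only [mul_one] at k1 k2 g2
  obtain ⟨Z, hZ⟩ : ∃ Z : ℝ → ℝ, Z = fun t => (zc (Ico (t + -(L * sp T)) (t + -(L * sp T) + c * sp T)) : ℝ) := ⟨_, rfl⟩
  have hk1 : IntegrableOn (fun t => |Z t - c| ^ 2) (Icc T (2 * T)) := by
    rw [hZ]
    exact k1.mono_set (Icc_subset_Icc (by linarith) le_rfl)
  have hk2 : ∫ t in Icc T (2 * T), |Z t - c| ^ 2 ≤ C * Real.log (2 + c) * T := by
    have h3 : ∫ t in Icc T (2 * T), |Z t - c| ^ 2 ≤ ∫ t in Icc (T - sp T) (2 * T), |Z t - c| ^ 2 := by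
      rw [hZ]
      exact setIntegral_mono_set k1 (ae_of_all _ fun t => by positivity) (Icc_subset_Icc (by linarith) le_rfl).eventuallyLE
    refine h3.trans ?_
    rw [hZ]
    refine k2.trans ?_
    simpa using g2
  have hB1 : 1 ≤ F.B := by
    unfold Fam.B
    have := Finset.sum_nonneg fun i (_ : i ∈ (Finset.univ : Finset (Fin F.n))) => abs_nonneg (F.c i)
    linarith
  have hpt : ∀ t, St F T t ^ 2 ≤ F.B ^ 2 * (2 * |Z t - c| ^ 2 + 2 * c ^ 2) := by
    intro t
    have h3 := st_abs hR hRL (by linarith : 1 < T) F t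
    have h4 : |St F T t| ≤ F.B * Z t := by
      rw [hZ, hc]
      exact h3
    have h5 : St F T t ^ 2 ≤ (F.B * Z t) ^ 2 := by
      rw [← sq_abs]
      exact pow_le_pow_left₀ (abs_nonneg _) h4 2
    have h6 : Z t ^ 2 ≤ 2 * |Z t - c| ^ 2 + 2 * c ^ 2 := by
      rw [sq_abs]
      nlinarith [sq_nonneg (Z t - 2 * c)]
    calc St F T t ^ 2 ≤ F.B ^ 2 * Z t ^ 2 := by rw [← mul_pow]; exact h5
      _ ≤ F.B ^ 2 * (2 * |Z t - c| ^ 2 + 2 * c ^ 2) := mul_le_mul_of_nonneg_left h6 (sq_nonneg _)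
  have hG : IntegrableOn (fun t => F.B ^ 2 * (2 * |Z t - c| ^ 2 + 2 * c ^ 2)) (Icc T (2 * T)) :=
    ((hk1.const_mul 2).add (integrableOn_const (by simp))).const_mul _
  have hSm : Measurable (St F T) := Pool.Agent.Helper28.TL.H82.st_meas F (by linarith)
  refine ⟨?_, ?_⟩
  · refine hG.mono' (hSm.pow_const 2).aestronglyMeasurable ?_
    filter_upwards with t
    rw [Real.norm_eq_abs, abs_of_nonneg (sq_nonneg _)]
    exact hpt t
  · have h3 : ∫ t in Icc T (2 * T), St F T t ^ 2 ≤ ∫ t in Icc T (2 * T), F.B ^ 2 * (2 * |Z t - c| ^ 2 + 2 * c ^ 2) :=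
      integral_mono_of_nonneg (ae_of_all _ fun t => sq_nonneg _) hG (ae_of_all _ hpt)
    refine h3.trans ?_
    rw [integral_const_mul, integral_add (hk1.const_mul 2) (integrableOn_const (by simp)), integral_const_mul, setIntegral_const]
    have h5 : (volume : Measure ℝ).real (Icc T (2 * T)) = T := by
      rw [measureReal_def, Real.volume_Icc, ENNReal.toReal_ofReal (by linarith)]
      ring
    rw [h5, smul_eq_mul]
    have h6 : Real.log (2 + c) ≤ 5 * L ^ 4 := by
      have h7 : Real.log (2 + c) ≤ 2 + c - 1 := Real.log_le_sub_one_of_pos (by linarith)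
      have h8 : L ≤ L ^ 4 := by
        calc L = L ^ 1 := (pow_one L).symm
          _ ≤ L ^ 4 := pow_le_pow_right₀ hL1 (by norm_num)
      rw [hc] at h7 ⊢
      have h9 : 1 ≤ L ^ 4 := one_le_pow₀ hL1
      linarith
    have h7 : c ^ 2 ≤ 9 * L ^ 4 := by
      have h8 : c ≤ 3 * L := by linarith
      calc c ^ 2 ≤ (3 * L) ^ 2 := pow_le_pow_left₀ (by linarith) h8 2
        _ = 9 * L ^ 2 := by ring
        _ ≤ 9 * L ^ 4 := by
            have := pow_le_pow_right₀ hL1 (show 2 ≤ 4 by norm_num)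
            linarith
    have hL4 : 0 ≤ L ^ 4 := by positivity
    have h8 : ∫ t in Icc T (2 * T), |Z t - c| ^ 2 ≤ C * (5 * L ^ 4) * T := by
      refine hk2.trans ?_
      gcongr
    calc F.B ^ 2 * (2 * (∫ t in Icc T (2 * T), |Z t - c| ^ 2) + T * (2 * c ^ 2))
        ≤ F.B ^ 2 * (2 * (C * (5 * L ^ 4) * T) + T * (2 * (9 * L ^ 4))) := by gcongr
      _ = (10 * C + 18) * F.B ^ 2 * L ^ 4 * T := by ring
      _ ≤ (12 * C + 60) * F.B ^ 2 * L ^ 4 * T := by
          gcongr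
          · linarith
          · norm_num

end Pool.Agent.Helper28.TL.H69
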