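import Pool.Agent.Helper28.OP.OptBase
import Pool.Agent.Helper28.TL.Step
import Pool.Agent.Helper28.TL.Wo
import Pool.Agent.Helper62.OP.IncLoss
import Pool.Agent.Helper93.OP.Prime

/-!
# TL, block T5: the theorem over the variance and the tails
-/

set_option autoImplicit false
open MeasureTheory Set Filter Topology
open Pool.Agent.Helper54.LG (za zb qk SS MM)
open Pool.Agent.Helper93.UG (zc sp)
open Pool.Agent.Helper69.UG (XX NX near far)
open Pool.Agent.Helper57.TX (QX DP rs)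
open Pool.Agent.Helper57.NS (cnt)
open Pool.Agent.Helper28.OP (rng_facts nt_split meas_low sp_low half_of three_cube half_mul')
open scoped ContDiff

namespace Pool.Agent.Helper28.TL

lemma Ev_sub {R L : ℝ} (F : Fam R L) (g h : ℝ → ℝ) : Ev F (fun x => g x - h x) = Ev F g - Ev F h := by
  unfold Ev
  have : ∑ i, F.c i * (g (F.b i) - h (F.b i) - (g (F.a i) - h (F.a i))) =
      ∑ i, F.c i * (g (F.b i) - g (F.a i)) - ∑ i, F.c i * (h (F.b i) - h (F.a i)) := by
    rw [← Finset.sum_sub_distrib]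
    exact Finset.sum_congr rfl fun i _ => by ring
  rw [this]
  ring

lemma Ev_const {R L : ℝ} (F : Fam R L) (c : ℝ) : Ev F (fun _ => c) = 0 := by
  unfold Ev
  simp

lemma B_ge {R L : ℝ} (F : Fam R L) : 1 ≤ F.B := by
  unfold Fam.B
  have := Finset.sum_nonneg (s := Finset.univ) fun i (_ : i ∈ Finset.univ) => abs_nonneg (F.c i)
  linarith

def StVarG (Psi : ℝ → ℝ) (κ : ℝ) : Prop := ∀ k d : ℝ, 0 < k → k ≤ d / 100 → 0 < d → d ≤ 1 → ∃ w0 C T₀ : ℝ, 0 < w0 ∧ 1 ≤ C ∧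
    ∀ T R L : ℝ, T₀ ≤ T → C ≤ L → Rng d T R L → ∀ F : Fam R L, F.B ≤ (L / R) ^ (k / 4) →
      κ ≤ |Ev F (fun x => Psi (x / R))| → w0 ≤ Wf k T F

def StPfTailG : Prop := ∀ k d : ℝ, 0 < k → k ≤ d / 100 → 0 < d → d ≤ 1 → ∀ w0 : ℝ, 0 < w0 →
    ∃ c C T₀ : ℝ, 0 < c ∧ 1 ≤ C ∧
    ∀ T R L e : ℝ, T₀ ≤ T → C ≤ L → Rng d T R L → 1 ≤ e → e ≤ 3 → ∀ F : Fam R L, F.B ≤ L ^ c → w0 ≤ Wf k T F →
      ENNReal.ofReal (1 / C * T) ≤ volume {t : ℝ | t ∈ Icc T (2 * T) ∧ e ≤ Pf k T F t} ∧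
      ENNReal.ofReal (1 / C * T) ≤ volume {t : ℝ | t ∈ Icc T (2 * T) ∧ Pf k T F t ≤ -e}

/-- T5 -/
theorem optG_of {Psi : ℝ → ℝ} {κ : ℝ} (var : StVarG Psi κ) (pf_tail : StPfTailG) {d : ℝ} (hd : 0 < d) (hd1 : d ≤ 1) :
    ∃ c C T₀ : ℝ, 0 < c ∧ 1 ≤ C ∧ ∀ T R L : ℝ, T₀ ≤ T → C ≤ L → Rng d T R L →
    ∀ (F : Fam R L) (A : ℝ), F.B ≤ L ^ c → κ ≤ |Ev F (fun x => Psi (x / R))| →
      ENNReal.ofReal ((L / R) ^ (-d) * T) ≤ volume {t : ℝ | T ≤ t ∧ t ≤ 2 * T ∧ 1 < |St F T t - A|} := by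
  obtain ⟨k, hkdef⟩ : ∃ k : ℝ, k = d / 1000 := ⟨_, rfl⟩
  have hk : 0 < k := by rw [hkdef]; positivity
  have hkd : k ≤ d / 100 := by rw [hkdef]; linarith
  obtain ⟨η, hηdef⟩ : ∃ η : ℝ, η = 1 / 100 := ⟨_, rfl⟩
  have hη : 0 < η := by rw [hηdef]; norm_num
  obtain ⟨e', he'def⟩ : ∃ e' : ℝ, e' = d ^ 2 / 16 := ⟨_, rfl⟩
  have he' : 0 < e' := by rw [he'def]; positivity
  have he'1 : e' ≤ 1 := by
    rw [he'def]
    have : d ^ 2 ≤ 1 := pow_le_one₀ hd.le hd1
    linarith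
  obtain ⟨c1, C1, T1, hc1, hC1, H1⟩ := Pool.Agent.Helper62.OP.inc_loss hk hkd hd hd1 10 (by norm_num)
  obtain ⟨c2, C2, T2, hc2, hC2, H2⟩ := Pool.Agent.Helper93.OP.inc_prime hk hkd hd hd1 10 (by norm_num)
  obtain ⟨w0, C6, T6, hw0, hC6, H6⟩ := var k d hk hkd hd hd1
  obtain ⟨c3, C3, T3, hc3, hC3, H3⟩ := pf_tail k d hk hkd hd hd1 w0 hw0
  obtain ⟨C4, T4, hC4, H4⟩ := step_st hk hkd hd hd1 η e' hη he' he'1
  obtain ⟨C5, T5, hC5, H5⟩ := H8.st_bd hd hd1 e' 1 he' one_pos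
  have ev1 : ∀ᶠ L : ℝ in atTop, 2 * (C1 * L ^ (-(c1 / 2)) + C2 * L ^ (-(c2 / 2))) ≤ η := by
    have h1 := (tendsto_rpow_neg_atTop (y := c1 / 2) (by positivity)).const_mul C1
    have h2 := (tendsto_rpow_neg_atTop (y := c2 / 2) (by positivity)).const_mul C2
    have h3 := (h1.add h2).const_mul 2
    simp only [mul_zero, add_zero] at h3
    exact (h3.eventually (gt_mem_nhds hη)).mono fun _ h => le_of_lt h
  have ev2 : ∀ᶠ L : ℝ in atTop, 2 * C3 * (C1 + C2 + C4 + 2) ≤ L ^ (10:ℝ) :=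
    (tendsto_rpow_atTop (by norm_num)).eventually_ge_atTop _
  have ev3 : ∀ᶠ L : ℝ in atTop, 2 * C3 ≤ L ^ (d ^ 2 / 4) := (tendsto_rpow_atTop (by positivity)).eventually_ge_atTop _
  have ev4 : ∀ᶠ L : ℝ in atTop, 3 ≤ L ^ e' := (tendsto_rpow_atTop he').eventually_ge_atTop _
  have ev5 : ∀ᶠ L : ℝ in atTop, 2 * C5 ≤ L := eventually_ge_atTop _
  have ev6 : ∀ᶠ L : ℝ in atTop, 2 ≤ L ^ (d ^ 2) := (tendsto_rpow_atTop (by positivity)).eventually_ge_atTop _
  have evT : ∀ᶠ T : ℝ in atTop, Real.log T ^ (10:ℝ) ≤ √T := by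
    have h1 := (isLittleO_log_rpow_rpow_atTop (r := 10) (s := 1 / 2) (by norm_num)).bound (c := 1) one_pos
    filter_upwards [h1, eventually_ge_atTop 3] with T h2 h3
    rw [Real.norm_eq_abs, Real.norm_eq_abs, one_mul, abs_of_nonneg (Real.rpow_nonneg (Real.log_nonneg (by linarith)) _),
      abs_of_nonneg (by positivity), ← Real.sqrt_eq_rpow] at h2
    exact h2
  obtain ⟨L0, hL0⟩ := eventually_atTop.mp (ev1.and (ev2.and (ev3.and (ev4.and (ev5.and (ev6.and (eventually_ge_atTop 1)))))))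
  obtain ⟨T0, hT0⟩ := eventually_atTop.mp (evT.and (eventually_ge_atTop 100))
  refine ⟨min (min e' (d * (k / 4))) (min c3 (min (c1 / 2) (c2 / 2))), max L0 (max C1 (max C2 (max C3 (max C4 (max C5 C6))))),
    max T0 (max T1 (max T2 (max T3 (max T4 (max T5 T6))))), by positivity, ?_, ?_⟩
  · exact hC1.trans ((le_max_left _ _).trans (le_max_right _ _))
  intro T R L hT hL hr F A hF hκ
  simp only [max_le_iff] at hT hL
  obtain ⟨hTT, hT1, hT2, hT3, hT4, hT5, hT6⟩ := hT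
  obtain ⟨hLL, hL1, hL2, hL3, hL4, hL5, hL6⟩ := hL
  obtain ⟨g1, g2, g3, g4, g5, g6, g7⟩ := hL0 L hLL
  obtain ⟨gT, gT3⟩ := hT0 T hTT
  have hTp : 0 < T := by linarith
  have hLp : 0 < L := by linarith
  obtain ⟨hR1, hRL, hU, hLT, hXo, hMs⟩ := rng_facts hk hd hd1 (by linarith : 3 ≤ T) g7 hr
  have hsp7 := Pool.Agent.Helper28.OP.sp_seven (lt_of_lt_of_le hLp hLT) hLT
  have hR0 : 0 < R := by linarith
  have hU1 : 1 ≤ L / R := (one_le_div hR0).2 hRL
  have hU0 : 0 < L / R := by linarith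
  obtain ⟨c, hcdef⟩ : ∃ c : ℝ, c = min (min e' (d * (k / 4))) (min c3 (min (c1 / 2) (c2 / 2))) := ⟨_, rfl⟩
  rw [← hcdef] at hF
  have hce : c ≤ e' := by rw [hcdef]; exact (min_le_left _ _).trans (min_le_left _ _)
  have hck : c ≤ d * (k / 4) := by rw [hcdef]; exact (min_le_left _ _).trans (min_le_right _ _)
  have hcc3 : c ≤ c3 := by rw [hcdef]; exact (min_le_right _ _).trans (min_le_left _ _)
  have hcc1 : c ≤ c1 / 2 := by
    rw [hcdef]; exact (min_le_right _ _).trans ((min_le_right _ _).trans (min_le_left _ _))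
  have hcc2 : c ≤ c2 / 2 := by
    rw [hcdef]; exact (min_le_right _ _).trans ((min_le_right _ _).trans (min_le_right _ _))
  have hFe : F.B ≤ L ^ e' := hF.trans (Real.rpow_le_rpow_of_exponent_le g7 hce)
  have hF3 : F.B ≤ L ^ c3 := hF.trans (Real.rpow_le_rpow_of_exponent_le g7 hcc3)
  have hFk : F.B ≤ (L / R) ^ (k / 4) := by
    refine hF.trans ((Real.rpow_le_rpow_of_exponent_le g7 hck).trans ?_)
    rw [Real.rpow_mul hLp.le]
    exact Real.rpow_le_rpow (by positivity) hU (by positivity)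
  have hW := H6 T R L hT6 hL6 hr F hFk hκ
  have hB1 := B_ge F
  obtain ⟨A', hA'⟩ : ∃ A' : ℝ, A' = A - Ev F id := ⟨_, rfl⟩
  have hset : {t : ℝ | T ≤ t ∧ t ≤ 2 * T ∧ 1 < |St F T t - A|} =
      {t : ℝ | T ≤ t ∧ t ≤ 2 * T ∧ 1 < |St F T t - Ev F id - A'|} := by
    ext t
    rw [mem_setOf_eq, mem_setOf_eq, hA', show St F T t - Ev F id - (A - Ev F id) = St F T t - A by ring]
  rw [hset]
  have hfin : volume {t : ℝ | T ≤ t ∧ t ≤ 2 * T ∧ 1 < |St F T t - Ev F id - A'|} ≤ ENNReal.ofReal T := by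
    refine (measure_mono (t := Icc T (2 * T)) fun t ht => ⟨ht.1, ht.2.1⟩).trans ?_
    rw [Real.volume_Icc]
    exact ENNReal.ofReal_le_ofReal (by linarith)
  have hUd : (L / R) ^ (-d) ≤ L ^ (-(d ^ 2)) := by
    calc (L / R) ^ (-d) ≤ (L ^ d) ^ (-d) := Real.rpow_le_rpow_of_nonpos (by positivity) hU (by linarith)
      _ = L ^ (-(d ^ 2)) := by
        rw [← Real.rpow_mul hLp.le]
        congr 1
        ring
  rcases le_or_gt |A'| (L ^ (3 * e')) with hA | hA
  · obtain ⟨E1, hE1, G1⟩ := H1 T R L hT1 hL1 hr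
    obtain ⟨E2, hE2, G2⟩ := H2 T R L hT2 hL2 hr
    have G4 := H4 T R L hT4 hL4 hr F A' 1 hFe one_pos (by norm_num) hA
    obtain ⟨G3a, G3b⟩ := H3 T R L 2 hT3 hL3 hr (by norm_num) (by norm_num) F hF3 hW
    have happ : ∀ t ∈ Icc T (2 * T), t ∉ E1 → t ∉ E2 → |Ev F (Nt k T R L t) - Ev F id - Pf k T F t| ≤ η := by
      intro t ht ht1 ht2
      have h1 : ∀ x : ℝ, |x| ≤ L → |Nt k T R L t x - x - (Pp k T R L t x - Pp k T R L t 0)| ≤
          C1 * L ^ (-c1) + C2 * L ^ (-c2) := by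
        intro x hx
        obtain ⟨hsp, hsp0⟩ := hsp7
        have hx1 : -7 ≤ x * sp T := sp_low hsp hsp0 hx
        exact nt_split (by linarith) (by linarith [ht.1]) (by linarith [ht.1]) (G1 t ht ht1 x hx) (G2 t ht ht2 x hx)
      have h2 := H44.ev_le hR0 hRL F h1
      have h3 : Ev F (fun x => Nt k T R L t x - x - (Pp k T R L t x - Pp k T R L t 0)) =
          Ev F (Nt k T R L t) - Ev F id - Pf k T F t := by
        rw [Ev_sub F (fun x => Nt k T R L t x - x) (fun x => Pp k T R L t x - Pp k T R L t 0),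
          Ev_sub F (Nt k T R L t) (fun x => x), Ev_sub F (Pp k T R L t) (fun _ => Pp k T R L t 0), Ev_const, H44.pf_eq]
        simp only [sub_zero]
        rfl
      rw [h3] at h2
      refine h2.trans (le_trans ?_ g1)
      have h4 : L ^ c * L ^ (-c1) ≤ L ^ (-(c1 / 2)) := by
        rw [← Real.rpow_add hLp]
        exact Real.rpow_le_rpow_of_exponent_le g7 (by linarith)
      have h5 : L ^ c * L ^ (-c2) ≤ L ^ (-(c2 / 2)) := by
        rw [← Real.rpow_add hLp]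
        exact Real.rpow_le_rpow_of_exponent_le g7 (by linarith)
      calc 2 * F.B * (C1 * L ^ (-c1) + C2 * L ^ (-c2)) ≤ 2 * L ^ c * (C1 * L ^ (-c1) + C2 * L ^ (-c2)) := by gcongr
        _ = 2 * (C1 * (L ^ c * L ^ (-c1)) + C2 * (L ^ c * L ^ (-c2))) := by ring
        _ ≤ _ := by gcongr
    have hP : ENNReal.ofReal (1 / C3 * T) ≤
        volume ({t : ℝ | t ∈ Icc (T + √T) (2 * T - √T) ∧ 1 + η < |Ev F (Nt k T R L t) - Ev F id - A'|} ∪
          (Icc T (T + √T) ∪ (Icc (2 * T - √T) (2 * T) ∪ (E1 ∪ E2)))) := by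
      rcases le_or_gt 0 A' with hs | hs
      · refine G3b.trans (measure_mono ?_)
        rintro t ⟨ht, hPt⟩
        by_cases m1 : t ∈ Icc T (T + √T)
        · exact Or.inr (Or.inl m1)
        by_cases m2 : t ∈ Icc (2 * T - √T) (2 * T)
        · exact Or.inr (Or.inr (Or.inl m2))
        by_cases m3 : t ∈ E1
        · exact Or.inr (Or.inr (Or.inr (Or.inl m3)))
        by_cases m4 : t ∈ E2
        · exact Or.inr (Or.inr (Or.inr (Or.inr m4)))
        have h1 := (abs_le.1 (happ t ht m3 m4)).2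
        refine Or.inl ⟨⟨?_, ?_⟩, ?_⟩
        · by_contra hcon
          exact m1 ⟨ht.1, (not_le.1 hcon).le⟩
        · by_contra hcon
          exact m2 ⟨(not_le.1 hcon).le, ht.2⟩
        · rw [lt_abs]
          right
          rw [hηdef] at h1 ⊢
          linarith
      · refine G3a.trans (measure_mono ?_)
        rintro t ⟨ht, hPt⟩
        by_cases m1 : t ∈ Icc T (T + √T)
        · exact Or.inr (Or.inl m1)
        by_cases m2 : t ∈ Icc (2 * T - √T) (2 * T)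
        · exact Or.inr (Or.inr (Or.inl m2))
        by_cases m3 : t ∈ E1
        · exact Or.inr (Or.inr (Or.inr (Or.inl m3)))
        by_cases m4 : t ∈ E2
        · exact Or.inr (Or.inr (Or.inr (Or.inr m4)))
        have h1 := (abs_le.1 (happ t ht m3 m4)).1
        refine Or.inl ⟨⟨?_, ?_⟩, ?_⟩
        · by_contra hcon
          exact m1 ⟨ht.1, (not_le.1 hcon).le⟩
        · by_contra hcon
          exact m2 ⟨(not_le.1 hcon).le, ht.2⟩
        · rw [lt_abs]
          left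
          rw [hηdef] at h1 ⊢
          linarith
    have hsq0 : 0 ≤ √T := Real.sqrt_nonneg T
    have hL10 : 0 < L ^ (-10 : ℝ) := Real.rpow_pos_of_pos hLp _
    have hedge : √T ≤ L ^ (-10 : ℝ) * T := by
      have h1 : L ^ (10:ℝ) ≤ √T := (Real.rpow_le_rpow hLp.le hLT (by norm_num)).trans gT
      have h2 : L ^ (-10 : ℝ) * L ^ (10:ℝ) = 1 := by rw [← Real.rpow_add hLp]; norm_num
      have h3 : √T * √T = T := Real.mul_self_sqrt hTp.le
      calc √T = L ^ (-10 : ℝ) * L ^ (10:ℝ) * √T := by rw [h2, one_mul]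
        _ ≤ L ^ (-10 : ℝ) * √T * √T := by gcongr
        _ = L ^ (-10 : ℝ) * T := by rw [mul_assoc, h3]
    obtain ⟨y, hy⟩ : ∃ y : ℝ, y = (C1 + C2 + C4 + 2) * (L ^ (-10 : ℝ) * T) := ⟨_, rfl⟩
    obtain ⟨x, hx⟩ : ∃ x : ℝ, x = 1 / C3 * T := ⟨_, rfl⟩
    have hsum : ENNReal.ofReal x ≤ ENNReal.ofReal (L ^ (4 * e')) *
        volume {t : ℝ | T ≤ t ∧ t ≤ 2 * T ∧ 1 < |St F T t - Ev F id - A'|} + ENNReal.ofReal y := by
      rw [hx]
      refine hP.trans ?_
      refine (measure_union_le _ _).trans ?_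
      have h1 : volume (Icc T (T + √T) ∪ (Icc (2 * T - √T) (2 * T) ∪ (E1 ∪ E2))) ≤
          ENNReal.ofReal ((C1 + C2 + 2) * (L ^ (-10 : ℝ) * T)) := by
        refine (measure_union_le _ _).trans ?_
        have h2 : volume (Icc T (T + √T)) ≤ ENNReal.ofReal (L ^ (-10 : ℝ) * T) := by
          rw [Real.volume_Icc]
          exact ENNReal.ofReal_le_ofReal (by linarith)
        have h3 : volume (Icc (2 * T - √T) (2 * T)) ≤ ENNReal.ofReal (L ^ (-10 : ℝ) * T) := by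
          rw [Real.volume_Icc]
          exact ENNReal.ofReal_le_ofReal (by linarith)
        have h4 : volume (Icc (2 * T - √T) (2 * T) ∪ (E1 ∪ E2)) ≤ ENNReal.ofReal (L ^ (-10 : ℝ) * T) +
            (ENNReal.ofReal (C1 * L ^ (-10 : ℝ) * T) + ENNReal.ofReal (C2 * L ^ (-10 : ℝ) * T)) :=
          (measure_union_le _ _).trans (add_le_add h3 ((measure_union_le _ _).trans (add_le_add hE1 hE2)))
        refine (add_le_add h2 h4).trans (le_of_eq ?_)
        rw [← ENNReal.ofReal_add (by positivity) (by positivity), ← ENNReal.ofReal_add (by positivity) (by positivity),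
          ← ENNReal.ofReal_add (by positivity) (by positivity)]
        congr 1
        ring
      refine (add_le_add G4 h1).trans (le_of_eq ?_)
      rw [add_assoc, ← ENNReal.ofReal_add (by positivity) (by positivity), hy]
      congr 2
      ring
    have hx0 : 0 ≤ x := by rw [hx]; positivity
    have hy0 : 0 ≤ y := by rw [hy]; positivity
    have hC30 : 0 < C3 := by linarith
    have hyx : y ≤ x / 2 := by
      have h3 : L ^ (10:ℝ) * L ^ (-10 : ℝ) = 1 := by rw [← Real.rpow_add hLp]; norm_num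
      have h4 : 2 * C3 * (C1 + C2 + C4 + 2) * L ^ (-10 : ℝ) ≤ 1 := by
        rw [← h3]
        exact mul_le_mul_of_nonneg_right g2 hL10.le
      have h5 : 2 * C3 * y ≤ C3 * x := by
        have e1 : C3 * x = T := by
          rw [hx]
          field_simp
        rw [e1, hy]
        calc 2 * C3 * ((C1 + C2 + C4 + 2) * (L ^ (-10 : ℝ) * T)) = 2 * C3 * (C1 + C2 + C4 + 2) * L ^ (-10 : ℝ) * T := by ring
          _ ≤ 1 * T := by gcongr
          _ = T := one_mul T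
      exact half_of (by linarith) h5
    have hK : 0 < L ^ (4 * e') := by positivity
    refine le_trans (ENNReal.ofReal_le_ofReal ?_) (meas_low hK hTp.le hfin hsum hx0 hy0 hyx)
    rw [le_div_iff₀ hK, hx]
    have h2 : 2 * C3 * L ^ (4 * e') * L ^ (-(d ^ 2)) ≤ 1 := by
      calc 2 * C3 * L ^ (4 * e') * L ^ (-(d ^ 2)) ≤ L ^ (d ^ 2 / 4) * L ^ (4 * e') * L ^ (-(d ^ 2)) := by gcongr
        _ = L ^ (-(d ^ 2 / 2)) := by
          rw [← Real.rpow_add hLp, ← Real.rpow_add hLp, he'def]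
          congr 1
          ring
        _ ≤ 1 := Real.rpow_le_one_of_one_le_of_nonpos g7 (neg_nonpos.2 (by positivity))
    have h5 : 1 / C3 * T / 2 = T / (2 * C3) := by field_simp
    rw [h5, le_div_iff₀ (by positivity)]
    calc (L / R) ^ (-d) * T * L ^ (4 * e') * (2 * C3) = (L / R) ^ (-d) * (2 * C3 * L ^ (4 * e') * T) := by ring
      _ ≤ L ^ (-(d ^ 2)) * (2 * C3 * L ^ (4 * e') * T) := mul_le_mul_of_nonneg_right hUd (by positivity)
      _ = 2 * C3 * L ^ (4 * e') * L ^ (-(d ^ 2)) * T := by ring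
      _ ≤ 1 * T := mul_le_mul_of_nonneg_right h2 hTp.le
      _ = T := one_mul T
  · obtain ⟨E, hE, G5⟩ := H5 T R L hT5 hL5 hr
    have h1 : Icc T (2 * T) ⊆ {t : ℝ | T ≤ t ∧ t ≤ 2 * T ∧ 1 < |St F T t - Ev F id - A'|} ∪ E := by
      intro t ht
      by_cases hm : t ∈ E
      · exact Or.inr hm
      refine Or.inl ⟨ht.1, ht.2, ?_⟩
      have h2 := G5 t ht hm F
      have h3 : F.B * L ^ e' ≤ L ^ e' * L ^ e' := by gcongr
      have h4 : L ^ (3 * e') = L ^ e' * L ^ e' * L ^ e' := by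
        rw [← Real.rpow_add hLp, ← Real.rpow_add hLp]
        congr 1
        ring
      obtain ⟨h5, h6⟩ := three_cube g4
      have h7 := abs_sub_abs_le_abs_sub A' (St F T t - Ev F id)
      rw [abs_sub_comm A'] at h7
      linarith
    have h2 : ENNReal.ofReal T ≤ volume {t : ℝ | T ≤ t ∧ t ≤ 2 * T ∧ 1 < |St F T t - Ev F id - A'|} +
        ENNReal.ofReal (C5 * L ^ (-1 : ℝ) * T) := by
      have h3 := (measure_mono h1 (μ := volume)).trans (measure_union_le _ _)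
      rw [Real.volume_Icc, show 2 * T - T = T by ring] at h3
      exact h3.trans (add_le_add le_rfl hE)
    have h3 : C5 * L ^ (-1 : ℝ) * T ≤ T / 2 := by
      rw [Real.rpow_neg_one]
      have h4 : C5 * L⁻¹ ≤ 1 / 2 := by
        rw [← div_eq_mul_inv, div_le_iff₀ hLp]
        linarith
      exact half_mul' h4 hTp.le
    have h4 := meas_low (K := 1) one_pos hTp.le hfin (by rw [ENNReal.ofReal_one, one_mul]; exact h2) hTp.le
      (by positivity) h3
    refine le_trans (ENNReal.ofReal_le_ofReal ?_) h4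
    rw [div_one]
    have h5 : (L / R) ^ (-d) ≤ 1 / 2 := by
      refine hUd.trans ?_
      rw [Real.rpow_neg hLp.le, one_div]
      exact inv_anti₀ two_pos g6
    calc (L / R) ^ (-d) * T ≤ 1 / 2 * T := by gcongr
      _ = T / 2 := by ring

end Pool.Agent.Helper28.TL
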