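import Pool.Agent.Helper28.TL.Opt
import Pool.Agent.Helper60.TL.PfTailG
import Pool.Agent.Helper82.OG.VarG

/-!
# TL: every prediction of a statistic of the window other than the number errs by more than one

`Psi` is the test function; `Ev F (Psi (x / R))` is the integral of the weights of the family against `-(Psi (x / R))'`.
-/

set_option autoImplicit false
open MeasureTheory Set Filter Topology
open scoped ContDiff

namespace Pool.Agent.Helper28.TL

/-- T5, without hypotheses -/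
theorem optG {d : ℝ} (hd : 0 < d) (hd1 : d ≤ 1) {Psi : ℝ → ℝ} (hP : ContDiff ℝ ∞ Psi) (hc : HasCompactSupport Psi)
    {κ : ℝ} (hκ : 0 < κ) : ∃ c C T₀ : ℝ, 0 < c ∧ 1 ≤ C ∧ ∀ T R L : ℝ, T₀ ≤ T → C ≤ L → Rng d T R L →
    ∀ (F : Fam R L) (A : ℝ), F.B ≤ L ^ c → κ ≤ |Ev F (fun x => Psi (x / R))| →
      ENNReal.ofReal ((L / R) ^ (-d) * T) ≤ volume {t : ℝ | T ≤ t ∧ t ≤ 2 * T ∧ 1 < |St F T t - A|} :=
  optG_of (fun _ _ hk hkd hd hd1 => Pool.Agent.Helper82.OG.var_lowG hk hkd hd hd1 hP hc hκ)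
    (fun _ _ hk hkd hd hd1 _ hw => Pool.Agent.Helper60.TL.pf_tailG hk hkd hd hd1 hw) hd hd1

end Pool.Agent.Helper28.TL
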