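import Pool.Agent.Helper69.OP.Smooth
import Pool.Agent.Helper28.TL.Defs

/-!
# OP, block O5d: the smoothing step for the statistic, over the statements of O4 and O5a, O5b
-/

set_option autoImplicit false
open MeasureTheory Set Filter Topology
open Pool.Agent.Helper57.Zeta Pool.Agent.Helper57.LH Pool.Agent.Helper57.ED
open Pool.Agent.Helper93.UG (zc sp)
open Pool.Agent.Helper62.OP (smooth_step)

namespace Pool.Agent.Helper28.TL

/-- `∫_{|v| > √T} |v|^(-7/4)` -/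
lemma tail_int {T : ℝ} (hT : 1 ≤ T) : IntegrableOn (fun v : ℝ => |v| ^ (-(7 / 4) : ℝ)) {v : ℝ | √T < |v|} ∧
    ∫ v in {v : ℝ | √T < |v|}, |v| ^ (-(7 / 4) : ℝ) ≤ 3 * T ^ (-(3 / 8) : ℝ) := by
  have hs : 0 < √T := Real.sqrt_pos.2 (by linarith)
  have hm : MeasurableSet {v : ℝ | √T < |v|} := measurableSet_lt measurable_const measurable_norm
  have h0 : IntegrableOn (fun v : ℝ => v ^ (-(7 / 4) : ℝ)) (Ioi (√T)) := integrableOn_Ioi_rpow_of_lt (by norm_num) hs
  have h1 : ∀ v : ℝ, ({v : ℝ | √T < |v|}).indicator (fun v : ℝ => |v| ^ (-(7 / 4) : ℝ)) v =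
      (Ioi (√T)).indicator (fun v : ℝ => v ^ (-(7 / 4) : ℝ)) |v| := by
    intro v
    by_cases hv : √T < |v|
    · rw [indicator_of_mem (show v ∈ {v : ℝ | √T < |v|} from hv), indicator_of_mem (show |v| ∈ Ioi (√T) from hv)]
    · rw [indicator_of_notMem (show v ∉ {v : ℝ | √T < |v|} from hv), indicator_of_notMem (show |v| ∉ Ioi (√T) from hv)]
  have h2 : ∫ v in {v : ℝ | √T < |v|}, |v| ^ (-(7 / 4) : ℝ) = 2 * ∫ v in Ioi (0:ℝ), (Ioi (√T)).indicator (fun v : ℝ => v ^ (-(7 / 4) : ℝ)) v := by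
    rw [← integral_indicator hm, ← integral_comp_abs (f := (Ioi (√T)).indicator (fun v : ℝ => v ^ (-(7 / 4) : ℝ)))]
    exact integral_congr_ae (ae_of_all _ h1)
  have h3 : ∫ v in Ioi (0:ℝ), (Ioi (√T)).indicator (fun v : ℝ => v ^ (-(7 / 4) : ℝ)) v = ∫ v in Ioi (√T), v ^ (-(7 / 4) : ℝ) := by
    rw [setIntegral_indicator measurableSet_Ioi, Ioi_inter_Ioi, max_eq_right hs.le]
  have h4 : ∫ v in Ioi (√T), v ^ (-(7 / 4) : ℝ) = 4 / 3 * T ^ (-(3 / 8) : ℝ) := by
    rw [integral_Ioi_rpow_of_lt (by norm_num) hs]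
    have h5 : √T ^ (-(7 / 4) + 1 : ℝ) = T ^ (-(3 / 8) : ℝ) := by
      rw [Real.sqrt_eq_rpow, ← Real.rpow_mul (by linarith)]
      norm_num
    rw [h5]
    ring
  constructor
  · have h6 : IntegrableOn (fun v : ℝ => |v| ^ (-(7 / 4) : ℝ)) (Ioi (√T)) := by
      refine h0.congr_fun (fun v hv => ?_) measurableSet_Ioi
      simp only
      rw [abs_of_pos (lt_trans hs hv)]
    have h7 : IntegrableOn (fun v : ℝ => |v| ^ (-(7 / 4) : ℝ)) (Iio (-√T)) := by
      have h8 := h6.comp_neg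
      rw [show -Ioi (√T) = Iio (-√T) by simp] at h8
      refine h8.congr_fun (fun v hv => ?_) measurableSet_Iio
      simp only
      rw [abs_neg]
    have h8 := h7.union h6
    refine h8.mono_set fun v hv => ?_
    rw [mem_ofPred_eq, lt_abs] at hv
    rcases hv with h | h
    · exact Or.inr h
    · exact Or.inl (by rw [mem_Iio]; linarith)
  · rw [h2, h3, h4]
    have : 0 ≤ T ^ (-(3 / 8) : ℝ) := Real.rpow_nonneg (by linarith) _
    linarith

/-- the far part of the convolution -/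
lemma far_le {ρ f : ℝ → ℝ} {T K D : ℝ} (hT : 1 ≤ T) (hK : 0 ≤ K) (hD : 0 ≤ D) (hρ : ∀ v, 0 ≤ ρ v)
    (hρ2 : ∀ v, v ≠ 0 → ρ v ≤ D / v ^ 2) (hf : ∀ u : ℝ, |f u| ≤ K * (1 + Real.log (|u| + T))) {t : ℝ}
    (ht : t ∈ Icc (T + √T) (2 * T - √T)) :
    ∫ v in {v : ℝ | √T < |v|}, ρ v * |f (t + v)| ≤ 60 * D * K * T ^ (-(3 / 8) : ℝ) := by
  have hs1 : 1 ≤ √T := Real.one_le_sqrt.2 hT
  have hm : MeasurableSet {v : ℝ | √T < |v|} := measurableSet_lt measurable_const measurable_norm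
  obtain ⟨hi, h1⟩ := tail_int hT
  have h2 : ∀ v ∈ {v : ℝ | √T < |v|}, ρ v * |f (t + v)| ≤ 20 * D * K * |v| ^ (-(7 / 4) : ℝ) := by
    intro v hv
    rw [mem_ofPred_eq] at hv
    have hv1 : 1 ≤ |v| := hs1.trans hv.le
    have hv0 : 0 < |v| := by linarith
    have hT2 : T ≤ |v| ^ 2 := by
      have h3 : √T ^ 2 ≤ |v| ^ 2 := pow_le_pow_left₀ (by linarith) hv.le 2
      rwa [Real.sq_sqrt (by linarith)] at h3
    have h3 : |t + v| + T ≤ 4 * |v| ^ 2 := by
      have h4 : |t + v| ≤ |t| + |v| := abs_add_le t v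
      have h5 : |t| ≤ 2 * T := abs_le.2 ⟨by linarith [ht.1], by linarith [ht.2]⟩
      nlinarith
    have h4 : Real.log (|t + v| + T) ≤ 16 * |v| ^ (1 / 4 : ℝ) := by
      calc Real.log (|t + v| + T) ≤ Real.log (4 * |v| ^ 2) := Real.log_le_log (by linarith [abs_nonneg (t + v)]) h3
        _ = 2 * Real.log (2 * |v|) := by
            rw [show 4 * |v| ^ 2 = (2 * |v|) ^ 2 by ring, Real.log_pow]
            norm_num
        _ ≤ 2 * ((2 * |v|) ^ (1 / 4 : ℝ) / (1 / 4)) := by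
            have := Real.log_le_rpow_div (x := 2 * |v|) (ε := 1 / 4) (by linarith) (by norm_num)
            linarith
        _ ≤ 2 * ((2 * |v| ^ (1 / 4 : ℝ)) / (1 / 4)) := by
            have h5 : (2 * |v|) ^ (1 / 4 : ℝ) ≤ 2 * |v| ^ (1 / 4 : ℝ) := by
              rw [Real.mul_rpow (by norm_num) hv0.le]
              refine mul_le_mul_of_nonneg_right ?_ (Real.rpow_nonneg hv0.le _)
              calc (2:ℝ) ^ (1 / 4 : ℝ) ≤ 2 ^ (1 : ℝ) := Real.rpow_le_rpow_of_exponent_le (by norm_num) (by norm_num)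
                _ = 2 := Real.rpow_one 2
            linarith
        _ = 16 * |v| ^ (1 / 4 : ℝ) := by ring
    have h5 : 1 ≤ |v| ^ (1 / 4 : ℝ) := Real.one_le_rpow hv1 (by norm_num)
    have h6 : |f (t + v)| ≤ 20 * K * |v| ^ (1 / 4 : ℝ) := by
      refine (hf (t + v)).trans ?_
      have : K * (1 + Real.log (|t + v| + T)) ≤ K * (20 * |v| ^ (1 / 4 : ℝ)) :=
        mul_le_mul_of_nonneg_left (by linarith) hK
      linarith
    have h7 : ρ v ≤ D * |v| ^ (-2 : ℝ) := by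
      refine (hρ2 v (abs_pos.1 hv0)).trans (le_of_eq ?_)
      rw [Real.rpow_neg hv0.le, Real.rpow_two, sq_abs]
      rfl
    calc ρ v * |f (t + v)| ≤ (D * |v| ^ (-2 : ℝ)) * (20 * K * |v| ^ (1 / 4 : ℝ)) :=
          mul_le_mul h7 h6 (abs_nonneg _) (by positivity)
      _ = 20 * D * K * (|v| ^ (-2 : ℝ) * |v| ^ (1 / 4 : ℝ)) := by ring
      _ = 20 * D * K * |v| ^ (-(7 / 4) : ℝ) := by
          rw [← Real.rpow_add hv0]
          norm_num
  have h3 : ∫ v in {v : ℝ | √T < |v|}, ρ v * |f (t + v)| ≤ ∫ v in {v : ℝ | √T < |v|}, 20 * D * K * |v| ^ (-(7 / 4) : ℝ) := by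
    refine integral_mono_of_nonneg (ae_of_all _ fun v => mul_nonneg (hρ v) (abs_nonneg _)) (hi.const_mul _) ?_
    filter_upwards [ae_restrict_mem hm] with v hv
    exact h2 v hv
  refine h3.trans ?_
  rw [integral_const_mul]
  have h4 := mul_le_mul_of_nonneg_left h1 (show 0 ≤ 20 * D * K by positivity)
  refine h4.trans (le_of_eq ?_)
  ring

/-- the integral over the bad set -/
lemma bad_le {f g : ℝ → ℝ} {T P lam m D : ℝ} {E S : Set ℝ} (hT : 0 ≤ T) (hlam : 0 < lam) (_ : 0 ≤ P) (hD : 0 ≤ D)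
    (hSm : MeasurableSet S) (hS : S ⊆ Icc T (2 * T)) (hE : volume E ≤ ENNReal.ofReal m) (hm : 0 ≤ m)
    (h1 : ∀ t ∈ Icc T (2 * T), t ∉ E → |f t| ≤ P) (h2 : ∀ t ∈ Icc T (2 * T), f t ^ 2 ≤ 3 * g t ^ 2 + D)
    (hg : IntegrableOn (fun t => g t ^ 2) (Icc T (2 * T))) {Q : ℝ} (hQ : ∫ t in Icc T (2 * T), g t ^ 2 ≤ Q) :
    ∫⁻ t in S, ENNReal.ofReal |f t| ≤ ENNReal.ofReal P * volume S +
      ENNReal.ofReal (lam * m + (3 * Q + D * T) / lam) := by
  obtain ⟨E', hE'⟩ : ∃ E' : Set ℝ, E' = toMeasurable volume E := ⟨_, rfl⟩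
  have hE'm : MeasurableSet E' := by rw [hE']; exact measurableSet_toMeasurable _ _
  have hE's : E ⊆ E' := by rw [hE']; exact subset_toMeasurable _ _
  have hE'v : volume E' ≤ ENNReal.ofReal m := by rw [hE', measure_toMeasurable]; exact hE
  have hpt : ∀ t ∈ S, ENNReal.ofReal |f t| ≤ ENNReal.ofReal P + (E'.indicator (fun _ => ENNReal.ofReal lam) t +
      ENNReal.ofReal ((3 * g t ^ 2 + D) / lam)) := by
    intro t ht
    have ht' := hS ht
    by_cases h : t ∈ E'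
    · rw [indicator_of_mem h]
      refine le_trans ?_ le_add_self
      have h3 := h2 t ht'
      rw [← ENNReal.ofReal_add hlam.le (div_nonneg (by positivity) hlam.le)]
      refine ENNReal.ofReal_le_ofReal ?_
      have h4 : |f t| ≤ lam + f t ^ 2 / lam := by
        rw [← sq_abs, ← sub_le_iff_le_add', le_div_iff₀ hlam]
        nlinarith [sq_nonneg (|f t| - lam), sq_nonneg lam, abs_nonneg (f t)]
      have h5 : f t ^ 2 / lam ≤ (3 * g t ^ 2 + D) / lam := by gcongr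
      linarith
    · refine le_trans (ENNReal.ofReal_le_ofReal (h1 t ht' fun h3 => h (hE's h3))) le_self_add
  have hQ0 : 0 ≤ Q := (integral_nonneg fun t => sq_nonneg (g t)).trans hQ
  have hSi : ∫⁻ t in S, ENNReal.ofReal |f t| ≤ ∫⁻ t in S, (ENNReal.ofReal P + (E'.indicator (fun _ => ENNReal.ofReal lam) t +
      ENNReal.ofReal ((3 * g t ^ 2 + D) / lam))) := setLIntegral_mono' hSm hpt
  refine hSi.trans ?_
  rw [lintegral_add_left measurable_const, lintegral_const, Measure.restrict_apply_univ]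
  refine add_le_add le_rfl ?_
  rw [lintegral_add_left (measurable_const.indicator hE'm)]
  have h3 : ∫⁻ t in S, E'.indicator (fun _ => ENNReal.ofReal lam) t ≤ ENNReal.ofReal (lam * m) := by
    rw [lintegral_indicator hE'm, lintegral_const, ENNReal.ofReal_mul hlam.le]
    refine mul_le_mul_right ?_ _
    rw [Measure.restrict_apply_univ]
    exact (Measure.restrict_apply_le _ _).trans hE'v
  have h4 : ∫⁻ t in S, ENNReal.ofReal ((3 * g t ^ 2 + D) / lam) ≤ ENNReal.ofReal ((3 * Q + D * T) / lam) := by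
    refine (lintegral_mono_set hS).trans ?_
    have hi : IntegrableOn (fun t => (3 * g t ^ 2 + D) / lam) (Icc T (2 * T)) :=
      ((hg.const_mul 3).add (integrableOn_const (by simp))).div_const _
    rw [← ofReal_integral_eq_lintegral_ofReal hi (ae_of_all _ fun t => by positivity)]
    refine ENNReal.ofReal_le_ofReal ?_
    rw [integral_div, integral_add (hg.const_mul 3) (integrableOn_const (by simp)), integral_const_mul, setIntegral_const]
    have h5 : (volume : Measure ℝ).real (Icc T (2 * T)) = T := by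
      rw [measureReal_def, Real.volume_Icc, ENNReal.toReal_ofReal (by linarith)]
      ring
    rw [h5, smul_eq_mul, mul_comm T D]
    gcongr
  refine (add_le_add h3 h4).trans (le_of_eq ?_)
  rw [ENNReal.ofReal_add (by positivity) (by positivity)]

lemma sq3 (a b c : ℝ) : (a - b - c) ^ 2 ≤ 3 * a ^ 2 + 3 * b ^ 2 + 3 * c ^ 2 := by
  nlinarith [sq_nonneg (a + b), sq_nonneg (a + c), sq_nonneg (b - c)]

lemma two_mul3 {B L : ℝ} (h : B ≤ L) (hL : 1 ≤ L) : 2 * B * L ≤ 2 * L ^ 3 := by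
  have h1 : B * L ≤ L * L := mul_le_mul_of_nonneg_right h (by linarith)
  have h2 : L * L ≤ L * L * L := le_mul_of_one_le_right (by positivity) hL
  have h3 : L ^ 3 = L * L * L := by ring
  rw [h3]
  linarith

/-- O5d, over the statements of the other blocks -/
theorem step_st_of {k d : ℝ} (hk : 0 < k) (_ : k ≤ d / 100) (_ : 0 < d) (_ : d ≤ 1) (η e' : ℝ) (hη : 0 < η) (he' : 0 < e')
    (he1 : e' ≤ 1)
    (bd0 : ∃ C T₀ : ℝ, 1 ≤ C ∧ ∀ T R L : ℝ, T₀ ≤ T → C ≤ L → Rng d T R L →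
      ∃ E : Set ℝ, volume E ≤ ENNReal.ofReal (C * L ^ (-(30 : ℝ)) * T) ∧ ∀ t ∈ Icc T (2 * T), t ∉ E → ∀ F : Fam R L,
        |St F T t - Ev F id| ≤ F.B * L ^ e')
    (sq0 : ∃ C T₀ : ℝ, 1 ≤ C ∧ ∀ T R L : ℝ, T₀ ≤ T → C ≤ L → Rng d T R L →
      ∀ F : Fam R L, IntegrableOn (fun t => St F T t ^ 2) (Icc T (2 * T)) ∧
        ∫ t in Icc T (2 * T), St F T t ^ 2 ≤ C * F.B ^ 2 * L ^ 4 * T)
    (cr0 : ∃ C T₀ : ℝ, 1 ≤ C ∧ ∀ T R L : ℝ, T₀ ≤ T → 0 < R → R ≤ L → L ≤ Real.log T → ∀ (F : Fam R L) (u : ℝ),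
      |St F T u| ≤ C * F.B * Real.log (|u| + T))
    (ms0 : ∀ {R L : ℝ} (F : Fam R L) {T : ℝ}, 1 < T → Measurable (St F T))
    (cv0 : ∀ {k R L T : ℝ}, 0 < R → R ≤ L → 3 ≤ T → ∀ (F : Fam R L) (t : ℝ),
      Integrable (fun v => rho k T R L v * St F T (t + v)) ∧
        ∫ v, rho k T R L v * St F T (t + v) = Ev F (Nt k T R L t))
    (rf0 : ∀ {k R L T : ℝ}, 0 < R → R ≤ L → 3 ≤ T →
      (∀ v, 0 ≤ rho k T R L v) ∧ Continuous (rho k T R L) ∧ Integrable (rho k T R L) ∧ ∫ v, rho k T R L v = 1 ∧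
        ∀ v, v ≠ 0 → rho k T R L v ≤ 4 * Ms k R L / (Real.log T * v ^ 2)) :
    ∃ C T₀ : ℝ, 1 ≤ C ∧ ∀ T R L : ℝ, T₀ ≤ T → C ≤ L → Rng d T R L → ∀ (F : Fam R L) (A ε : ℝ), F.B ≤ L ^ e' → 0 < ε → ε ≤ 2 →
      |A| ≤ L ^ (3 * e') →
      volume {t : ℝ | t ∈ Icc (T + √T) (2 * T - √T) ∧ ε + η < |Ev F (Nt k T R L t) - Ev F id - A|} ≤
        ENNReal.ofReal (L ^ (4 * e')) * volume {t : ℝ | T ≤ t ∧ t ≤ 2 * T ∧ ε < |St F T t - Ev F id - A|} +
          ENNReal.ofReal (C * L ^ (-10 : ℝ) * T) := by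
  obtain ⟨C1, T1, hC1, H1⟩ := bd0
  obtain ⟨C2, T2, hC2, H2⟩ := sq0
  obtain ⟨C3, T3, hC3, H3⟩ := cr0
  have hev2 : ∀ {R L : ℝ}, 0 < R → R ≤ L → ∀ F : Fam R L, |Ev F id| ≤ 2 * F.B * L := by
    intro R L hR hRL F
    unfold Ev Fam.B
    have hs : |∑ i, F.c i * (F.b i - F.a i)| ≤ ∑ i, |F.c i| * (2 * L) := by
      refine (Finset.abs_sum_le_sum_abs _ _).trans (Finset.sum_le_sum fun i _ => ?_)
      rw [abs_mul]
      refine mul_le_mul_of_nonneg_left ?_ (abs_nonneg _)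
      have h1 := F.le i
      have h2 := F.inn i
      rw [abs_of_nonneg (by linarith)]
      linarith [h2.1, h2.2]
    rw [← Finset.sum_mul] at hs
    simp only [id]
    have h3 := abs_add_le (R - -R) (∑ i, F.c i * (F.b i - F.a i))
    have h4 : |R - -R| ≤ 2 * L := by
      rw [abs_of_nonneg (by linarith)]
      linarith
    have h5 : 2 * (1 + ∑ i, |F.c i|) * L = 2 * L + (∑ i, |F.c i|) * (2 * L) := by ring
    linarith
  -- the conditions on `L` and `T`
  have hlim : ∀ᶠ T : ℝ in atTop, 240 * (8 * C3) * (Real.log T ^ 4 * T ^ (-(3 / 8) : ℝ)) < η / 2 := by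
    have h1 : Tendsto (fun T : ℝ => 240 * (8 * C3) * (Real.log T ^ 4 * T ^ (-(3 / 8) : ℝ))) atTop (𝓝 (240 * (8 * C3) * 0)) := by
      refine Tendsto.const_mul _ ?_
      have h2 := isLittleO_log_rpow_rpow_atTop 4 (show (0:ℝ) < 3 / 8 by norm_num)
      have h3 := h2.tendsto_div_nhds_zero
      refine h3.congr' ?_
      filter_upwards [eventually_gt_atTop (0:ℝ)] with T hT
      rw [Real.rpow_neg hT.le, div_eq_mul_inv]
      norm_cast
    exact h1.eventually_lt_const (by rw [mul_zero]; linarith)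
  obtain ⟨T4, hT4⟩ := hlim.exists_forall_of_atTop
  obtain ⟨C5, hC5⟩ : ∃ C5 : ℝ, ∀ L : ℝ, C5 ≤ L → 4 / η ≤ L ^ e' := by
    have h1 := (tendsto_rpow_atTop he').eventually_ge_atTop (4 / η)
    exact h1.exists_forall_of_atTop
  obtain ⟨C6, hC6⟩ : ∃ C6 : ℝ, C6 = 2 / η * (C1 + 3 * C2 + 15) := ⟨_, rfl⟩
  refine ⟨max (max C1 C2) (max C5 C6), max (max T1 T2) (max (max T3 T4) 3), (hC1.trans (le_max_left _ _)).trans (le_max_left _ _),
    fun T R L hT hL hRng F A ε hF hε hε2 hA => ?_⟩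
  have hTa := (le_max_left _ _).trans hT
  have hTb := (le_max_right _ _).trans hT
  have hTc := (le_max_left _ _).trans hTb
  have hT1 : T1 ≤ T := (le_max_left _ _).trans hTa
  have hT2 : T2 ≤ T := (le_max_right _ _).trans hTa
  have hT3 : T3 ≤ T := (le_max_left _ _).trans hTc
  have hT4' : T4 ≤ T := (le_max_right _ _).trans hTc
  have hT0 : 3 ≤ T := (le_max_right _ _).trans hTb
  have hLa := (le_max_left _ _).trans hL
  have hLb := (le_max_right _ _).trans hL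
  have hL1 : C1 ≤ L := (le_max_left _ _).trans hLa
  have hL2 : C2 ≤ L := (le_max_right _ _).trans hLa
  have hL5 : C5 ≤ L := (le_max_left _ _).trans hLb
  have hL6 : C6 ≤ L := (le_max_right _ _).trans hLb
  have hL0 : 1 ≤ L := hC1.trans hL1
  have hLp : 0 < L := by linarith
  have hlog1 : 1 ≤ Real.log T := by
    rw [Real.le_log_iff_exp_le (by linarith)]
    linarith [Real.exp_one_lt_d9]
  obtain ⟨hR1, hR2, hR3⟩ := hRng
  have hLlog : L ≤ Real.log T := hR1.trans (by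
    calc Real.log T ^ (1 - d) ≤ Real.log T ^ (1 : ℝ) := Real.rpow_le_rpow_of_exponent_le hlog1 (by linarith)
      _ = Real.log T := Real.rpow_one _)
  have hR : 0 < R := lt_of_lt_of_le (Real.rpow_pos_of_pos hLp _) hR2
  have hRL : R ≤ L := hR3.trans (by
    calc L ^ (1 - d) ≤ L ^ (1 : ℝ) := Real.rpow_le_rpow_of_exponent_le hL0 (by linarith)
      _ = L := Real.rpow_one _)
  have hB1 : 1 ≤ F.B := by
    unfold Fam.B
    have := Finset.sum_nonneg fun i (_ : i ∈ (Finset.univ : Finset (Fin F.n))) => abs_nonneg (F.c i)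
    linarith
  have hLe : L ^ e' ≤ L := by
    calc L ^ e' ≤ L ^ (1 : ℝ) := Real.rpow_le_rpow_of_exponent_le hL0 he1
      _ = L := Real.rpow_one _
  have hBL : F.B ≤ L := hF.trans hLe
  have hev := hev2 hR hRL F
  have h3e : L ^ (3 * e') ≤ L ^ 3 := by
    calc L ^ (3 * e') ≤ L ^ (3 : ℝ) := Real.rpow_le_rpow_of_exponent_le hL0 (by linarith)
      _ = L ^ 3 := by norm_cast
  obtain ⟨q1, q2, q3, q4, q5⟩ := rf0 (k := k) hR hRL hT0
  obtain ⟨E, hE, hE2⟩ := H1 T R L hT1 hL1 ⟨hR1, hR2, hR3⟩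
  obtain ⟨hsq1, hsq2⟩ := H2 T R L hT2 hL2 ⟨hR1, hR2, hR3⟩ F
  have hcr := H3 T R L hT3 hR hRL hLlog F
  have hms := ms0 F (show 1 < T by linarith)
  obtain ⟨f, hf⟩ : ∃ f : ℝ → ℝ, f = fun t => St F T t - Ev F id - A := ⟨_, rfl⟩
  have hfm : Measurable f := by
    rw [hf]
    exact (hms.sub_const _).sub_const _
  have hconv : ∀ t, Integrable (fun v => rho k T R L v * f (t + v)) ∧
      ∫ v, rho k T R L v * f (t + v) = Ev F (Nt k T R L t) - Ev F id - A := by
    intro t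
    obtain ⟨g1, g2⟩ := cv0 (k := k) hR hRL hT0 F t
    have g3 : ∀ v, rho k T R L v * f (t + v) = rho k T R L v * St F T (t + v) - (Ev F id + A) * rho k T R L v := by
      intro v
      rw [hf]
      ring
    simp_rw [g3]
    refine ⟨g1.sub (q3.const_mul _), ?_⟩
    rw [integral_sub g1 (q3.const_mul _), integral_const_mul, g2, q4]
    ring
  -- the far part
  have hMs0 : 0 ≤ Ms k R L := by
    unfold Ms
    positivity
  have hMsL : Ms k R L ≤ L := by
    unfold Ms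
    have h1 : (L / R) ^ (-k) ≤ 1 := Real.rpow_le_one_of_one_le_of_nonpos ((one_le_div hR).2 hRL) (by linarith)
    calc R * (L / R) ^ (-k) ≤ R * 1 := mul_le_mul_of_nonneg_left h1 hR.le
      _ ≤ L := by linarith
  have hfar : ∀ t ∈ Icc (T + √T) (2 * T - √T), ∫ v in {v : ℝ | √T < |v|}, rho k T R L v * |f (t + v)| ≤ η / 2 := by
    intro t ht
    have hK : 0 ≤ 8 * C3 * L ^ 3 := by positivity
    have h1 := far_le (ρ := rho k T R L) (f := f) (K := 8 * C3 * L ^ 3) (D := 4 * Ms k R L / Real.log T) (by linarith : (1:ℝ) ≤ T) hK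
      (by positivity) q1 (fun v hv => by
        refine (q5 v hv).trans (le_of_eq ?_)
        rw [div_div]) (fun u => by
        have g1 := hcr u
        have g2 : |f u| ≤ |St F T u| + |Ev F id| + |A| := by
          rw [hf]
          have g3 := abs_sub (St F T u - Ev F id) A
          have g4 := abs_sub (St F T u) (Ev F id)
          simp only
          linarith
        have hlu : 0 ≤ Real.log (|u| + T) := Real.log_nonneg (by linarith [abs_nonneg u])
        have g3 : C3 * F.B * Real.log (|u| + T) ≤ 8 * C3 * L ^ 3 * Real.log (|u| + T) := by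
          refine mul_le_mul_of_nonneg_right ?_ hlu
          have g7 : F.B ≤ L ^ 3 := hBL.trans (by
            calc L = L ^ 1 := (pow_one L).symm
              _ ≤ L ^ 3 := pow_le_pow_right₀ hL0 (by norm_num))
          have g8 : C3 * F.B ≤ C3 * L ^ 3 := mul_le_mul_of_nonneg_left g7 (by linarith)
          have g9 : 0 ≤ C3 * L ^ 3 := by positivity
          linarith
        have g4 : 2 * F.B * L ≤ 2 * L ^ 3 := two_mul3 hBL hL0
        have g5 : L ^ 3 ≤ C3 * L ^ 3 := le_mul_of_one_le_left (by positivity) hC3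
        have g6 := hA.trans h3e
        rw [mul_add, mul_one]
        linarith) ht
    refine h1.trans ?_
    have h2 := hT4 T hT4'
    have h3 : 4 * Ms k R L / Real.log T ≤ 4 := by
      rw [div_le_iff₀ (by linarith)]
      linarith
    have h4 : L ^ 3 ≤ Real.log T ^ 4 := by
      calc L ^ 3 ≤ Real.log T ^ 3 := pow_le_pow_left₀ hLp.le hLlog 3
        _ ≤ Real.log T ^ 4 := pow_le_pow_right₀ hlog1 (by norm_num)
    have h5 : 0 ≤ T ^ (-(3 / 8) : ℝ) := Real.rpow_nonneg (by linarith) _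
    calc 60 * (4 * Ms k R L / Real.log T) * (8 * C3 * L ^ 3) * T ^ (-(3 / 8) : ℝ)
        ≤ 60 * 4 * (8 * C3 * Real.log T ^ 4) * T ^ (-(3 / 8) : ℝ) := by gcongr
      _ = 240 * (8 * C3) * (Real.log T ^ 4 * T ^ (-(3 / 8) : ℝ)) := by ring
      _ ≤ η / 2 := h2.le
  have hstep := smooth_step (ρ := rho k T R L) (f := f) (T := T) (e := ε) (η := η) (by linarith) hη hε q1 q2.measurable q4 q3 hfm
    (fun t _ => (hconv t).1) hfar
  simp_rw [fun t => (hconv t).2] at hstep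
  -- the bad set
  obtain ⟨S, hS⟩ : ∃ S : Set ℝ, S = {t : ℝ | t ∈ Icc T (2 * T) ∧ ε < |f t|} := ⟨_, rfl⟩
  have hSm : MeasurableSet S := by
    rw [hS]
    exact measurableSet_Icc.inter (measurableSet_lt measurable_const hfm.norm)
  have hbad := bad_le (f := f) (g := St F T) (T := T) (P := 2 * L ^ (3 * e')) (lam := L ^ (18 : ℝ))
    (m := C1 * L ^ (-(30:ℝ)) * T) (D := 15 * L ^ 6) (E := E) (S := S) (by linarith) (by positivity) (by positivity) (by positivity)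
    hSm (by rw [hS]; exact fun t ht => ht.1) hE (by positivity) (fun t ht htE => by
      have g1 := hE2 t ht htE F
      have g2 : F.B * L ^ e' ≤ L ^ (3 * e') := by
        calc F.B * L ^ e' ≤ L ^ e' * L ^ e' := mul_le_mul_of_nonneg_right hF (by positivity)
          _ = L ^ (2 * e') := by rw [← Real.rpow_add hLp]; ring_nf
          _ ≤ L ^ (3 * e') := Real.rpow_le_rpow_of_exponent_le hL0 (by linarith)
      rw [hf]
      have g3 := abs_sub (St F T t - Ev F id) A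
      simp only
      linarith) (fun t ht => by
      rw [hf]
      simp only
      have g1 : Ev F id ^ 2 ≤ 4 * L ^ 6 := by
        have g2 : |Ev F id| ≤ 2 * L ^ 3 := hev.trans (two_mul3 hBL hL0)
        calc Ev F id ^ 2 = |Ev F id| ^ 2 := (sq_abs _).symm
          _ ≤ (2 * L ^ 3) ^ 2 := pow_le_pow_left₀ (abs_nonneg _) g2 2
          _ = 4 * L ^ 6 := by ring
      have g2 : A ^ 2 ≤ L ^ 6 := by
        calc A ^ 2 = |A| ^ 2 := (sq_abs _).symm
          _ ≤ (L ^ 3) ^ 2 := pow_le_pow_left₀ (abs_nonneg _) (hA.trans h3e) 2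
          _ = L ^ 6 := by ring
      have g3 := sq3 (St F T t) (Ev F id) A
      linarith) hsq1 hsq2
  rw [← hS] at hstep
  have hSeq : S = {t : ℝ | T ≤ t ∧ t ≤ 2 * T ∧ ε < |St F T t - Ev F id - A|} := by
    rw [hS, hf]
    ext t
    simp only [mem_Icc, mem_ofPred_eq, and_assoc]
  rw [← hSeq]
  have h1 := hstep.trans hbad
  have hη4 := hC5 L hL5
  -- the constants
  have k1 : L ^ (18 : ℝ) * (C1 * L ^ (-(30:ℝ)) * T) + (3 * (C2 * F.B ^ 2 * L ^ 4 * T) + 15 * L ^ 6 * T) / L ^ (18 : ℝ) ≤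
      (C1 + 3 * C2 + 15) * L ^ (-(12:ℝ)) * T := by
    have e1 : L ^ (18 : ℝ) * L ^ (-(30:ℝ)) = L ^ (-(12:ℝ)) := by
      rw [← Real.rpow_add hLp]
      norm_num
    have e2 : L ^ 6 / L ^ (18 : ℝ) = L ^ (-(12:ℝ)) := by
      rw [show L ^ 6 = L ^ (6:ℝ) by norm_cast, ← Real.rpow_sub hLp]
      norm_num
    have e3 : C2 * F.B ^ 2 * L ^ 4 * T ≤ C2 * L ^ 6 * T := by
      have e4 : F.B ^ 2 ≤ L ^ 2 := pow_le_pow_left₀ (by linarith) hBL 2
      have e5 : C2 * F.B ^ 2 * L ^ 4 * T ≤ C2 * L ^ 2 * L ^ 4 * T := by gcongr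
      refine e5.trans (le_of_eq ?_)
      ring
    calc L ^ (18 : ℝ) * (C1 * L ^ (-(30:ℝ)) * T) + (3 * (C2 * F.B ^ 2 * L ^ 4 * T) + 15 * L ^ 6 * T) / L ^ (18 : ℝ)
        ≤ L ^ (18 : ℝ) * (C1 * L ^ (-(30:ℝ)) * T) + (3 * (C2 * L ^ 6 * T) + 15 * L ^ 6 * T) / L ^ (18 : ℝ) := by gcongr
      _ = C1 * (L ^ (18 : ℝ) * L ^ (-(30:ℝ))) * T + (3 * C2 + 15) * (L ^ 6 / L ^ (18 : ℝ)) * T := by ring
      _ = (C1 + 3 * C2 + 15) * L ^ (-(12:ℝ)) * T := by
          rw [e1, e2]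
          ring
  have k2 : ENNReal.ofReal (2 / η) * ENNReal.ofReal (η / 2) = 1 := by
    rw [← ENNReal.ofReal_mul (by positivity), show 2 / η * (η / 2) = 1 by field_simp, ENNReal.ofReal_one]
  have k3 : 2 / η * (2 * L ^ (3 * e')) ≤ L ^ (4 * e') := by
    have e1 : L ^ (4 * e') = L ^ e' * L ^ (3 * e') := by
      rw [← Real.rpow_add hLp]
      ring_nf
    rw [e1]
    calc 2 / η * (2 * L ^ (3 * e')) = 4 / η * L ^ (3 * e') := by ring
      _ ≤ L ^ e' * L ^ (3 * e') := mul_le_mul_of_nonneg_right hη4 (by positivity)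
  have k4 : 2 / η * ((C1 + 3 * C2 + 15) * L ^ (-(12:ℝ)) * T) ≤ max (max C1 C2) (max C5 C6) * L ^ (-10 : ℝ) * T := by
    have e1 : L ^ (-(12:ℝ)) ≤ L ^ (-10 : ℝ) := Real.rpow_le_rpow_of_exponent_le hL0 (by norm_num)
    have e2 : C6 ≤ max (max C1 C2) (max C5 C6) := (le_max_right _ _).trans (le_max_right _ _)
    have e3 : 0 ≤ C6 := by
      rw [hC6]
      positivity
    calc 2 / η * ((C1 + 3 * C2 + 15) * L ^ (-(12:ℝ)) * T) = C6 * L ^ (-(12:ℝ)) * T := by rw [hC6]; ring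
      _ ≤ C6 * L ^ (-10 : ℝ) * T := by gcongr
      _ ≤ _ := by gcongr
  calc volume {t : ℝ | t ∈ Icc (T + √T) (2 * T - √T) ∧ ε + η < |Ev F (Nt k T R L t) - Ev F id - A|}
      = ENNReal.ofReal (2 / η) * (ENNReal.ofReal (η / 2) *
        volume {t : ℝ | t ∈ Icc (T + √T) (2 * T - √T) ∧ ε + η < |Ev F (Nt k T R L t) - Ev F id - A|}) := by
        rw [← mul_assoc, k2, one_mul]
    _ ≤ ENNReal.ofReal (2 / η) * (ENNReal.ofReal (2 * L ^ (3 * e')) * volume S +
        ENNReal.ofReal (L ^ (18 : ℝ) * (C1 * L ^ (-(30:ℝ)) * T) + (3 * (C2 * F.B ^ 2 * L ^ 4 * T) + 15 * L ^ 6 * T) / L ^ (18 : ℝ))) :=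
        mul_le_mul_right h1 _
    _ ≤ ENNReal.ofReal (2 / η) * (ENNReal.ofReal (2 * L ^ (3 * e')) * volume S +
        ENNReal.ofReal ((C1 + 3 * C2 + 15) * L ^ (-(12:ℝ)) * T)) := by
        gcongr
    _ = ENNReal.ofReal (2 / η * (2 * L ^ (3 * e'))) * volume S +
        ENNReal.ofReal (2 / η * ((C1 + 3 * C2 + 15) * L ^ (-(12:ℝ)) * T)) := by
        rw [mul_add, ← mul_assoc, ← ENNReal.ofReal_mul (by positivity), ← ENNReal.ofReal_mul (by positivity)]
    _ ≤ _ := by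
        gcongr

end Pool.Agent.Helper28.TL
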